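import Mathlib

set_option autoImplicit false

namespace Pool.Agent.H231EC

open Finset

/-- A proper edge colouring of `H` with colours in `C`. -/
structure ECol {V : Type} (H : SimpleGraph V) (C : Type) where
  c : V → V → C
  symm : ∀ u v, H.Adj u v → c u v = c v u
  proper : ∀ u v w, H.Adj u v → H.Adj u w → c u v = c u w → v = w

variable {V C : Type} {H : SimpleGraph V}

/-- colour `a` is missing at `u`. -/
def Miss (φ : ECol H C) (u : V) (a : C) : Prop := ∀ v, H.Adj u v → φ.c u v ≠ a

/-- The subgraph of edges coloured `a` or `b`. -/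
def KG (φ : ECol H C) (a b : C) : SimpleGraph V where
  Adj u v := H.Adj u v ∧ (φ.c u v = a ∨ φ.c u v = b)
  symm := by
    constructor
    intro u v h
    refine ⟨h.1.symm, ?_⟩
    rw [← φ.symm u v h.1]
    exact h.2
  loopless := ⟨fun u h => H.loopless.irrefl u h.1⟩

/-- `u` and `v` lie in the same Kempe component. -/
def Lk (φ : ECol H C) (a b : C) (u v : V) : Prop := (KG φ a b).Reachable u v

theorem Lk.refl (φ : ECol H C) (a b : C) (u : V) : Lk φ a b u u := SimpleGraph.Reachable.refl u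

theorem Lk.symm {φ : ECol H C} {a b : C} {u v : V} (h : Lk φ a b u v) : Lk φ a b v u :=
  SimpleGraph.Reachable.symm h

theorem Lk.trans {φ : ECol H C} {a b : C} {u v w : V} (h : Lk φ a b u v) (h' : Lk φ a b v w) :
    Lk φ a b u w := SimpleGraph.Reachable.trans h h'

theorem Lk.of_edge {φ : ECol H C} {a b : C} {u v : V} (h : H.Adj u v)
    (h' : φ.c u v = a ∨ φ.c u v = b) : Lk φ a b u v :=
  SimpleGraph.Adj.reachable (G := KG φ a b) ⟨h, h'⟩

theorem KG_comm (φ : ECol H C) (a b : C) : KG φ a b = KG φ b a := by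
  ext u v
  simp only [KG]
  tauto

theorem Lk_comm {φ : ECol H C} {a b : C} {u v : V} : Lk φ a b u v ↔ Lk φ b a u v := by
  unfold Lk; rw [KG_comm]

section swap

variable [DecidableEq C]

open Classical in
/-- Kempe swap of colours `a`, `b` on the component of `z`. -/
noncomputable def kswap (φ : ECol H C) (a b : C) (z : V) : ECol H C where
  c u v := if Lk φ a b z u then Equiv.swap a b (φ.c u v) else φ.c u v
  symm := by
    intro u v h
    by_cases hc : φ.c u v = a ∨ φ.c u v = b
    · have h1 : Lk φ a b z u ↔ Lk φ a b z v :=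
        ⟨fun hh => hh.trans (Lk.of_edge h hc), fun hh => hh.trans (Lk.of_edge h hc).symm⟩
      simp only [h1, φ.symm u v h]
    · push Not at hc
      have h2 : φ.c v u ≠ a ∧ φ.c v u ≠ b := by rw [← φ.symm u v h]; exact hc
      rw [Equiv.swap_apply_of_ne_of_ne hc.1 hc.2, Equiv.swap_apply_of_ne_of_ne h2.1 h2.2,
        φ.symm u v h]
      simp
  proper := by
    intro u v w h h' heq
    apply φ.proper u v w h h'
    split_ifs at heq with hz
    · exact (Equiv.swap a b).injective heq
    · exact heq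

open Classical in
theorem kswap_c (φ : ECol H C) (a b : C) (z u v : V) :
    (kswap φ a b z).c u v = if Lk φ a b z u then Equiv.swap a b (φ.c u v) else φ.c u v := rfl

theorem kswap_c_in {φ : ECol H C} {a b : C} {z u v : V} (h : Lk φ a b z u) :
    (kswap φ a b z).c u v = Equiv.swap a b (φ.c u v) := by
  rw [kswap_c, if_pos h]

theorem kswap_c_out {φ : ECol H C} {a b : C} {z u v : V} (h : ¬ Lk φ a b z u) :
    (kswap φ a b z).c u v = φ.c u v := by
  rw [kswap_c, if_neg h]

theorem kswap_c_ne {φ : ECol H C} {a b : C} {z u v : V} (h1 : φ.c u v ≠ a) (h2 : φ.c u v ≠ b) :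
    (kswap φ a b z).c u v = φ.c u v := by
  rw [kswap_c, Equiv.swap_apply_of_ne_of_ne h1 h2]; simp

theorem miss_kswap_in {φ : ECol H C} {a b : C} {z u : V} (h : Lk φ a b z u) (d : C) :
    Miss (kswap φ a b z) u d ↔ Miss φ u (Equiv.swap a b d) := by
  unfold Miss
  constructor
  · intro h1 v hv heq
    apply h1 v hv
    rw [kswap_c_in h, heq, Equiv.swap_apply_self]
  · intro h1 v hv heq
    apply h1 v hv
    rw [kswap_c_in h] at heq
    rw [← heq, Equiv.swap_apply_self]

theorem miss_kswap_out {φ : ECol H C} {a b : C} {z u : V} (h : ¬ Lk φ a b z u) (d : C) :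
    Miss (kswap φ a b z) u d ↔ Miss φ u d := by
  unfold Miss
  simp only [kswap_c_out h]

theorem miss_kswap_ne {φ : ECol H C} {a b : C} {z u : V} {d : C} (h1 : d ≠ a) (h2 : d ≠ b) :
    Miss (kswap φ a b z) u d ↔ Miss φ u d := by
  by_cases h : Lk φ a b z u
  · rw [miss_kswap_in h, Equiv.swap_apply_of_ne_of_ne h1 h2]
  · rw [miss_kswap_out h]

end swap

/-- `φ` and `ψ` have the same colour class `d`. -/
def Ag (φ ψ : ECol H C) (d : C) : Prop := ∀ u v, H.Adj u v → (φ.c u v = d ↔ ψ.c u v = d)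

theorem Ag.refl (φ : ECol H C) (d : C) : Ag φ φ d := fun _ _ _ => Iff.rfl

theorem Ag.symm {φ ψ : ECol H C} {d : C} (h : Ag φ ψ d) : Ag ψ φ d := fun u v huv => (h u v huv).symm

theorem Ag.trans {φ ψ χ : ECol H C} {d : C} (h : Ag φ ψ d) (h' : Ag ψ χ d) : Ag φ χ d :=
  fun u v huv => (h u v huv).trans (h' u v huv)

theorem Ag.miss {φ ψ : ECol H C} {d : C} (h : Ag φ ψ d) (u : V) : Miss φ u d ↔ Miss ψ u d := by
  unfold Miss
  constructor
  · intro h1 v hv heq; exact h1 v hv ((h u v hv).2 heq)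
  · intro h1 v hv heq; exact h1 v hv ((h u v hv).1 heq)

theorem Ag.KG {φ ψ : ECol H C} {a b : C} (ha : Ag φ ψ a) (hb : Ag φ ψ b) : KG φ a b = KG ψ a b := by
  ext u v
  simp only [H231EC.KG]
  constructor
  · rintro ⟨h, h1⟩
    refine ⟨h, ?_⟩
    rcases h1 with h1 | h1
    · exact Or.inl ((ha u v h).1 h1)
    · exact Or.inr ((hb u v h).1 h1)
  · rintro ⟨h, h1⟩
    refine ⟨h, ?_⟩
    rcases h1 with h1 | h1
    · exact Or.inl ((ha u v h).2 h1)
    · exact Or.inr ((hb u v h).2 h1)

theorem Ag.Lk {φ ψ : ECol H C} {a b : C} (ha : Ag φ ψ a) (hb : Ag φ ψ b) (u v : V) :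
    Lk φ a b u v ↔ Lk ψ a b u v := by
  unfold H231EC.Lk; rw [Ag.KG ha hb]

theorem Ag_kswap [DecidableEq C] {φ : ECol H C} {a b : C} (z : V) {d : C} (h1 : d ≠ a) (h2 : d ≠ b) :
    Ag φ (kswap φ a b z) d := by
  intro u v huv
  rw [kswap_c]
  split_ifs with h
  · constructor
    · intro h3; rw [h3, Equiv.swap_apply_of_ne_of_ne h1 h2]
    · intro h3
      have := congrArg (Equiv.swap a b) h3
      rw [Equiv.swap_apply_self, Equiv.swap_apply_of_ne_of_ne h1 h2] at this
      exact this
  · exact Iff.rfl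

/-- an edge of colour different from `a` is missing colour ... -/
theorem not_miss_of_edge {φ : ECol H C} {u v : V} (h : H.Adj u v) : ¬ Miss φ u (φ.c u v) :=
  fun h1 => h1 v h rfl

theorem not_miss_of_edge' {φ : ECol H C} {u v : V} (h : H.Adj u v) : ¬ Miss φ v (φ.c u v) :=
  fun h1 => h1 u h.symm (φ.symm u v h).symm

/-- K1: a Kempe component has at most two ends. -/
theorem three_ends [Fintype V] [DecidableEq C] (φ : ECol H C) (a b : C) (u1 u2 u3 : V)
    (h12 : u1 ≠ u2) (h13 : u1 ≠ u3) (h23 : u2 ≠ u3)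
    (l12 : Lk φ a b u1 u2) (l13 : Lk φ a b u1 u3)
    (m1 : Miss φ u1 a ∨ Miss φ u1 b) (m2 : Miss φ u2 a ∨ Miss φ u2 b)
    (m3 : Miss φ u3 a ∨ Miss φ u3 b) : False := by
  classical
  obtain ⟨K, hK⟩ : ∃ K : (KG φ a b).ConnectedComponent,
      K = (KG φ a b).connectedComponentMk u1 := ⟨_, rfl⟩
  have hu1 : u1 ∈ K := by rw [hK]; exact SimpleGraph.ConnectedComponent.connectedComponentMk_mem
  have hu2 : u2 ∈ K := by
    rw [hK]
    exact SimpleGraph.ConnectedComponent.sound (SimpleGraph.Reachable.symm l12)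
  have hu3 : u3 ∈ K := by
    rw [hK]
    exact SimpleGraph.ConnectedComponent.sound (SimpleGraph.Reachable.symm l13)
  have hconn : K.toSimpleGraph.Connected := K.connected_toSimpleGraph
  have hcard := hconn.card_vert_le_card_edgeSet_add_one
  have hsum := K.toSimpleGraph.sum_degrees_eq_twice_card_edges
  -- degrees
  have hadj : ∀ x y : K, K.toSimpleGraph.Adj x y → (KG φ a b).Adj x.1 y.1 := by
    intro x y h
    exact h
  have hdeg2 : ∀ x : K, K.toSimpleGraph.degree x ≤ 2 := by
    intro x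
    have h1 : ((K.toSimpleGraph.neighborFinset x).image (fun y => φ.c x.1 y.1)) ⊆ {a, b} := by
      intro d hd
      obtain ⟨y, hy, rfl⟩ := Finset.mem_image.1 hd
      have h2 := (hadj x y ((SimpleGraph.mem_neighborFinset _ _ _).1 hy)).2
      simpa using h2
    have h2 : ((K.toSimpleGraph.neighborFinset x).image (fun y => φ.c x.1 y.1)).card =
        (K.toSimpleGraph.neighborFinset x).card := by
      apply Finset.card_image_of_injOn
      intro y hy z hz hyz
      apply Subtype.ext
      exact φ.proper x.1 y.1 z.1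
        (hadj x y ((SimpleGraph.mem_neighborFinset _ _ _).1 (Finset.mem_coe.1 hy))).1
        (hadj x z ((SimpleGraph.mem_neighborFinset _ _ _).1 (Finset.mem_coe.1 hz))).1 hyz
    rw [← SimpleGraph.card_neighborFinset_eq_degree, ← h2]
    exact (Finset.card_le_card h1).trans Finset.card_le_two
  have hdeg1 : ∀ x : K, (Miss φ x.1 a ∨ Miss φ x.1 b) → K.toSimpleGraph.degree x ≤ 1 := by
    intro x hx
    rw [← SimpleGraph.card_neighborFinset_eq_degree, Finset.card_le_one]
    intro y hy z hz
    have hy1 := hadj x y ((SimpleGraph.mem_neighborFinset _ _ _).1 hy)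
    have hz1 := hadj x z ((SimpleGraph.mem_neighborFinset _ _ _).1 hz)
    have hyz : φ.c x.1 y.1 = φ.c x.1 z.1 := by
      rcases hx with hx | hx
      · have e1 := hy1.2.resolve_left (hx y.1 hy1.1)
        have e2 := hz1.2.resolve_left (hx z.1 hz1.1)
        rw [e1, e2]
      · have e1 := hy1.2.resolve_right (hx y.1 hy1.1)
        have e2 := hz1.2.resolve_right (hx z.1 hz1.1)
        rw [e1, e2]
    exact Subtype.ext (φ.proper x.1 y.1 z.1 hy1.1 hz1.1 hyz)
  -- summation
  obtain ⟨x1, hx1⟩ : ∃ x : K, x = ⟨u1, hu1⟩ := ⟨_, rfl⟩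
  obtain ⟨x2, hx2⟩ : ∃ x : K, x = ⟨u2, hu2⟩ := ⟨_, rfl⟩
  obtain ⟨x3, hx3⟩ : ∃ x : K, x = ⟨u3, hu3⟩ := ⟨_, rfl⟩
  have n12 : x1 ≠ x2 := by
    rw [hx1, hx2]
    intro h
    exact h12 (congrArg Subtype.val h)
  have n13 : x1 ≠ x3 := by
    rw [hx1, hx3]
    intro h
    exact h13 (congrArg Subtype.val h)
  have n23 : x2 ≠ x3 := by
    rw [hx2, hx3]
    intro h
    exact h23 (congrArg Subtype.val h)
  obtain ⟨T, hT⟩ : ∃ T : Finset K, T = {x1, x2, x3} := ⟨_, rfl⟩
  have hTc : T.card = 3 := by
    rw [hT]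
    exact Finset.card_eq_three.2 ⟨x1, x2, x3, n12, n13, n23, rfl⟩
  have hbound : ∀ x : K, K.toSimpleGraph.degree x + (if x ∈ T then 1 else 0) ≤ 2 := by
    intro x
    by_cases hx : x ∈ T
    · rw [if_pos hx]
      rw [hT] at hx
      simp only [Finset.mem_insert, Finset.mem_singleton] at hx
      have : K.toSimpleGraph.degree x ≤ 1 := by
        apply hdeg1
        rcases hx with h | h | h
        · rw [h, hx1]
          exact m1
        · rw [h, hx2]
          exact m2
        · rw [h, hx3]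
          exact m3
      omega
    · rw [if_neg hx]
      have := hdeg2 x
      omega
  have htot : ∑ x : K, (K.toSimpleGraph.degree x + (if x ∈ T then 1 else 0)) ≤
      ∑ _x : K, 2 := Finset.sum_le_sum fun x _ => hbound x
  rw [Finset.sum_add_distrib, hsum] at htot
  have hT2 : ∑ x : K, (if x ∈ T then 1 else 0) = 3 := by
    rw [Finset.sum_ite_mem, Finset.univ_inter, Finset.sum_const, hTc]
    rfl
  rw [hT2, Finset.sum_const, Finset.card_univ, smul_eq_mul] at htot
  rw [Nat.card_eq_fintype_card, Nat.card_eq_fintype_card] at hcard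
  have he : Fintype.card K.toSimpleGraph.edgeSet = K.toSimpleGraph.edgeFinset.card := by
    rw [SimpleGraph.edgeFinset, Set.toFinset_card]
  rw [he] at hcard
  omega

/-- number of missing colours. -/
theorem card_miss [Fintype C] [DecidableEq C] (φ : ECol H C) (u : V) (F : Finset C)
    (hF : ∀ a, a ∈ F ↔ Miss φ u a) (N : Finset V) (hN : ∀ v, v ∈ N ↔ H.Adj u v) :
    F.card + N.card = Fintype.card C := by
  have h1 : (N.image (φ.c u)).card = N.card := by
    apply Finset.card_image_of_injOn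
    intro v hv w hw h
    exact φ.proper u v w ((hN v).1 hv) ((hN w).1 hw) h
  have h2 : F = Finset.univ \ N.image (φ.c u) := by
    ext a
    simp only [hF, Finset.mem_sdiff, Finset.mem_univ, true_and, Finset.mem_image, not_exists, not_and,
      Miss, hN]
  rw [h2, ← h1, Finset.card_sdiff_add_card_eq_card (Finset.subset_univ _), Finset.card_univ]

/-- delete all edges at `x`. -/
def dl (G : SimpleGraph V) (x : V) : SimpleGraph V where
  Adj u v := G.Adj u v ∧ u ≠ x ∧ v ≠ x
  symm := ⟨fun _ _ h => ⟨h.1.symm, h.2.2, h.2.1⟩⟩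
  loopless := ⟨fun u h => G.loopless.irrefl u h.1⟩

theorem dl_adj {G : SimpleGraph V} {x u v : V} : (dl G x).Adj u v ↔ G.Adj u v ∧ u ≠ x ∧ v ≠ x :=
  Iff.rfl

open Classical in
/-- extend a colouring of `G - x` to `G` by a system of distinct representatives. -/
theorem extend {G : SimpleGraph V} {x : V} (φ : ECol (dl G x) C) (f : V → C)
    (hf : ∀ u, G.Adj x u → Miss φ u (f u))
    (hinj : ∀ u v, G.Adj x u → G.Adj x v → f u = f v → u = v) : Nonempty (ECol G C) := by
  refine ⟨⟨fun u v => if u = x then f v else if v = x then f u else φ.c u v, ?_, ?_⟩⟩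
  · intro u v h
    by_cases h1 : u = x
    · by_cases h2 : v = x
      · subst h1; subst h2; exact absurd h (G.loopless.irrefl _)
      · simp [h1, h2]
    · by_cases h2 : v = x
      · simp [h1, h2]
      · simp only [h1, h2, if_false]
        exact φ.symm u v ⟨h, h1, h2⟩
  · intro u v w h h' heq
    by_cases h1 : u = x
    · subst h1
      simp only [if_true] at heq
      exact hinj v w h h' heq
    · simp only [h1, if_false] at heq
      by_cases h2 : v = x
      · by_cases h3 : w = x
        · rw [h2, h3]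
        · subst h2
          simp only [if_true, h3, if_false] at heq
          exact absurd heq.symm (hf u h.symm w ⟨h', h1, h3⟩)
      · by_cases h3 : w = x
        · subst h3
          simp only [if_true, h2, if_false] at heq
          exact absurd heq (hf u h'.symm v ⟨h, h1, h2⟩)
        · simp only [h2, h3, if_false] at heq
          exact φ.proper u v w ⟨h, h1, h2⟩ ⟨h', h1, h3⟩ heq

/-- delete the edge `xy`. -/
def de (G : SimpleGraph V) (x y : V) : SimpleGraph V where
  Adj u v := G.Adj u v ∧ ¬ (u = x ∧ v = y) ∧ ¬ (u = y ∧ v = x)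
  symm := ⟨fun _ _ h => ⟨h.1.symm, fun h' => h.2.2 ⟨h'.2, h'.1⟩, fun h' => h.2.1 ⟨h'.2, h'.1⟩⟩⟩
  loopless := ⟨fun u h => G.loopless.irrefl u h.1⟩

/-- restrict a colouring of `G - xy` to `G - x`. -/
theorem restrict {G : SimpleGraph V} {x y : V} (ψ : ECol (de G x y) C) :
    ∃ (φ : ECol (dl G x) C) (f : V → C), (∀ u, G.Adj x u → u ≠ y → Miss φ u (f u)) ∧
      (∀ u v, G.Adj x u → u ≠ y → G.Adj x v → v ≠ y → f u = f v → u = v) := by
  have hsub : ∀ u v, (dl G x).Adj u v → (de G x y).Adj u v := by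
    intro u v h
    exact ⟨h.1, fun h' => h.2.1 h'.1, fun h' => h.2.2 h'.2⟩
  have hx : ∀ u, G.Adj x u → u ≠ y → (de G x y).Adj x u := by
    intro u h hu
    refine ⟨h, fun h' => hu h'.2, fun h' => ?_⟩
    have : u = x := h'.2
    subst this
    exact G.loopless.irrefl _ h
  refine ⟨⟨ψ.c, fun u v h => ψ.symm u v (hsub u v h),
    fun u v w h h' => ψ.proper u v w (hsub u v h) (hsub u w h')⟩, fun u => ψ.c x u, ?_, ?_⟩
  · intro u h hu v hv heq
    have h1 := hx u h hu
    have h2 : ψ.c u v = ψ.c u x := by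
      rw [← ψ.symm x u h1]; exact heq
    exact hv.2.2 (ψ.proper u v x (hsub u v hv) h1.symm h2)
  · intro u v h hu h' hv heq
    exact ψ.proper x u v (hx u h hu) (hx v h' hv) heq

end Pool.Agent.H231EC
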