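import Mathlib
import Pool.Agent.H231EC.Basic

set_option autoImplicit false

namespace Pool.Agent.H231EC

open Finset

open Classical in
/-- degree -/
noncomputable def dg {V : Type} [Fintype V] (G : SimpleGraph V) (v : V) : ℕ :=
  (Finset.univ.filter (fun w => G.Adj v w)).card

open Classical in
/-- the neighbours of `x` of degree larger than `k`. -/
noncomputable def bigN {V : Type} [Fintype V] (G : SimpleGraph V) (k : ℕ) (x : V) : Finset V :=
  Finset.univ.filter (fun w => G.Adj x w ∧ ¬ dg G w ≤ k)

/-- the vertices of degree `> k` with at most `k` neighbours of degree `> k`. -/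
def XX {V : Type} [Fintype V] (G : SimpleGraph V) (k : ℕ) (x : V) : Prop :=
  ¬ dg G x ≤ k ∧ (bigN G k x).card ≤ k

/-- `f` is a system of distinct representatives of the missing colours of `N(x) \ {y}`. -/
def SDRx {V C : Type} (G : SimpleGraph V) (x y : V) (φ : ECol (dl G x) C) (f : V → C) : Prop :=
  (∀ u, G.Adj x u → u ≠ y → Miss φ u (f u)) ∧
    (∀ u v, G.Adj x u → u ≠ y → G.Adj x v → v ≠ y → f u = f v → u = v)

open Classical in
/-- a critical counterexample -/
structure Crit {V : Type} [Fintype V] (G : SimpleGraph V) (C : Type) [Fintype C] (k : ℕ) : Prop where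
  nc : ECol G C → False
  cr : ∀ x y, G.Adj x y → Nonempty (ECol (de G x y) C)
  deg : ∀ v, dg G v ≤ Fintype.card C
  dgn : ∀ s : Finset V, s.Nonempty → ∃ v ∈ s, (s.filter (fun w => G.Adj v w)).card ≤ k
  hk : 200 ≤ k
  hC : 2 * k - 1 ≤ Fintype.card C

end Pool.Agent.H231EC
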