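import Mathlib
import Pool.Agent.H231EC.Defs

set_option autoImplicit false

namespace Pool.Agent.H231EC

open Finset

/-- The base configuration: the vertex `x`, its uncoloured leaf `y`, the other leaves `L` and the big
neighbours `Wn`; `m w` is the colour missing at `w`. -/
structure Base (V : Type) [Fintype V] (C : Type) [Fintype C] (k : ℕ) where
  G : SimpleGraph V
  x : V
  y : V
  Wn : Finset V
  L : Finset V
  m : V → C
  nc : ECol G C → False
  hC : Fintype.card C = 2 * k - 1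
  hk : 2 ≤ k
  adjx : ∀ u, G.Adj x u ↔ u ∈ Wn ∨ u = y ∨ u ∈ L
  yW : y ∉ Wn
  yL : y ∉ L
  WL : ∀ u ∈ Wn, u ∉ L
  cW : Wn.card = k
  cL : L.card + 2 ≤ k
  mi : ∀ u ∈ Wn, ∀ v ∈ Wn, m u = m v → u = v
  degL : ∀ l ∈ L, dg G l = k

namespace Base

variable {V C : Type} [Fintype V] [Fintype C] {k : ℕ} (B : Base V C k)

/-- the colour set `W`. -/
def W (a : C) : Prop := ∃ w ∈ B.Wn, B.m w = a

/-- `φ` has the right missing colours at `Wn` and `y`. -/
def Gd0 (φ : ECol (dl B.G B.x) C) : Prop :=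
  (∀ w ∈ B.Wn, ∀ a, Miss φ w a ↔ a = B.m w) ∧ (∀ a, Miss φ B.y a ↔ B.W a)

/-- `g` is a system of distinct representatives for `L`, outside `W`. -/
def SD (φ : ECol (dl B.G B.x) C) (g : V → C) : Prop :=
  (∀ l ∈ B.L, Miss φ l (g l)) ∧ (∀ l ∈ B.L, ∀ l' ∈ B.L, g l = g l' → l = l') ∧
    ∀ l ∈ B.L, ¬ B.W (g l)

def Good (φ : ECol (dl B.G B.x) C) : Prop := B.Gd0 φ ∧ ∃ g, B.SD φ g

/-- there is a free colour outside the protected set `P`. -/
def Av (φ : ECol (dl B.G B.x) C) (P : Finset C) : Prop :=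
  ∃ g, B.SD φ g ∧ ∃ b, ¬ B.W b ∧ b ∉ P ∧ ∀ l ∈ B.L, g l ≠ b

open Classical in
/-- number of leaves missing `η` -/
noncomputable def cnt (φ : ECol (dl B.G B.x) C) (η : C) : ℕ := (B.L.filter (fun l => Miss φ l η)).card

def nr (φ ψ : ECol (dl B.G B.x) C) (r : ℕ) : Prop := ∀ η, ¬ B.W η → B.cnt φ η ≤ B.cnt ψ η + r

theorem nr_trans {φ ψ χ : ECol (dl B.G B.x) C} {r s : ℕ} (h : B.nr φ ψ r) (h' : B.nr ψ χ s) :
    B.nr φ χ (r + s) := by
  intro η hη
  have h1 := h η hη
  have h2 := h' η hη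
  omega

theorem nr_mono {φ ψ : ECol (dl B.G B.x) C} {r s : ℕ} (h : B.nr φ ψ r) (hrs : r ≤ s) :
    B.nr φ ψ s := by
  intro η hη
  have h1 := h η hη
  omega

open Classical in
theorem card_W : (Finset.univ.filter (fun a => B.W a)).card = k := by
  have h : Finset.univ.filter (fun a => B.W a) = B.Wn.image B.m := by
    ext a
    simp only [Finset.mem_filter, Finset.mem_univ, true_and, Finset.mem_image]
    exact Iff.rfl
  rw [h, Finset.card_image_of_injOn, B.cW]
  intro u hu v hv he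
  exact B.mi u hu v hv he

open Classical in
theorem card_Wc : (Finset.univ.filter (fun a => ¬ B.W a)).card = k - 1 := by
  have h := Finset.card_filter_add_card_filter_not (s := (Finset.univ : Finset C)) (p := fun a => B.W a)
  rw [B.card_W, Finset.card_univ, B.hC] at h
  have := B.hk
  omega

open Classical in
theorem card_missL (φ : ECol (dl B.G B.x) C) {l : V} (hl : l ∈ B.L) :
    (Finset.univ.filter (fun a => Miss φ l a)).card = k := by
  have hx : B.G.Adj B.x l := (B.adjx l).2 (Or.inr (Or.inr hl))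
  have h := card_miss φ l (Finset.univ.filter (fun a => Miss φ l a)) (by intro a; simp)
    ((Finset.univ.filter (fun w => B.G.Adj l w)).erase B.x) (by
      intro v
      simp only [Finset.mem_erase, Finset.mem_filter, Finset.mem_univ, true_and, dl_adj]
      constructor
      · intro h
        refine ⟨h.2, ?_, h.1⟩
        rintro rfl
        exact B.G.loopless.irrefl _ hx
      · intro h; exact ⟨h.2.2, h.1⟩)
  rw [Finset.card_erase_of_mem (by simpa using hx.symm)] at h
  have h2 := B.degL l hl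
  unfold dg at h2
  have h3 := B.hk
  have h4 := B.hC
  omega

/-- a leaf not missing some colour outside `W` misses at least two colours of `W`. -/
theorem two_in_W (φ : ECol (dl B.G B.x) C) {l : V} (hl : l ∈ B.L) {b : C} (hb : ¬ B.W b)
    (hlb : ¬ Miss φ l b) (P : Finset C) (hP : ∀ a ∈ P, ∀ a' ∈ P, B.W a → B.W a' → a = a') :
    ∃ s, Miss φ l s ∧ B.W s ∧ s ∉ P := by
  classical
  by_contra hcon
  push Not at hcon
  have h1 : Finset.univ.filter (fun a => Miss φ l a) ⊆
      ((Finset.univ.filter (fun a => ¬ B.W a)).erase b) ∪ (P.filter (fun a => B.W a)) := by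
    intro a ha
    simp only [Finset.mem_filter, Finset.mem_univ, true_and] at ha
    simp only [Finset.mem_union, Finset.mem_erase, Finset.mem_filter, Finset.mem_univ, true_and]
    by_cases hw : B.W a
    · exact Or.inr ⟨hcon a ha hw, hw⟩
    · left
      refine ⟨?_, hw⟩
      rintro rfl
      exact hlb ha
  have h2 := Finset.card_le_card h1
  rw [B.card_missL φ hl] at h2
  have h3 := Finset.card_union_le ((Finset.univ.filter (fun a => ¬ B.W a)).erase b)
    (P.filter (fun a => B.W a))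
  rw [Finset.card_erase_of_mem (by simpa using hb), B.card_Wc] at h3
  have h4 : (P.filter (fun a => B.W a)).card ≤ 1 := by
    rw [Finset.card_le_one]
    intro a ha a' ha'
    simp only [Finset.mem_filter] at ha ha'
    exact hP a ha.1 a' ha'.1 ha.2 ha'.2
  have := B.hk
  have := B.cL
  omega

theorem exists_free {φ : ECol (dl B.G B.x) C} {g : V → C} (hg : B.SD φ g) :
    ∃ b, ¬ B.W b ∧ ∀ l ∈ B.L, g l ≠ b := by
  classical
  by_contra hcon
  push Not at hcon
  have h1 : Finset.univ.filter (fun a => ¬ B.W a) ⊆ B.L.image g := by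
    intro a ha
    simp only [Finset.mem_filter, Finset.mem_univ, true_and] at ha
    obtain ⟨l, hl, h⟩ := hcon a ha
    exact Finset.mem_image.2 ⟨l, hl, h⟩
  have h2 := Finset.card_le_card h1
  rw [B.card_Wc] at h2
  have h3 : (B.L.image g).card ≤ B.L.card := Finset.card_image_le
  have := B.cL
  omega

theorem L0 {φ : ECol (dl B.G B.x) C} (h0 : B.Gd0 φ) {g : V → C} (hg : B.SD φ g) {w : V}
    (hw : w ∈ B.Wn) {b : C} (hb : ¬ B.W b) (hfree : ∀ l ∈ B.L, g l ≠ b) :
    Lk φ (B.m w) b w B.y := by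
  classical
  by_contra hL
  have hmb : ∀ u ∈ B.Wn, B.m u ≠ b := fun u hu he => hb ⟨u, hu, he⟩
  have hex : Nonempty (ECol B.G C) := by
    refine extend (kswap φ (B.m w) b w)
      (fun u => if u = w then b else if u = B.y then B.m w else if u ∈ B.Wn then B.m u else g u)
      ?_ ?_
    · intro u hu
      by_cases h1 : u = w
      · subst h1
        simp only [if_true]
        rw [miss_kswap_in (Lk.refl _ _ _ _), Equiv.swap_apply_right]
        exact (h0.1 u hw _).2 rfl
      · by_cases h2 : u = B.y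
        · subst h2
          simp only [h1, if_false, if_true]
          rw [miss_kswap_out hL]
          exact (h0.2 _).2 ⟨w, hw, rfl⟩
        · by_cases h3 : u ∈ B.Wn
          · simp only [h1, h2, h3, if_false, if_true]
            rw [miss_kswap_ne (fun he => h1 (B.mi u h3 w hw he)) (hmb u h3)]
            exact (h0.1 u h3 _).2 rfl
          · simp only [h1, h2, h3, if_false]
            have h4 : u ∈ B.L := by
              rcases (B.adjx u).1 hu with h | h | h
              · exact absurd h h3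
              · exact absurd h h2
              · exact h
            rw [miss_kswap_ne (fun he => hg.2.2 u h4 ⟨w, hw, he.symm⟩) (hfree u h4)]
            exact hg.1 u h4
    · have key : ∀ u, B.G.Adj B.x u → u ≠ w → u ≠ B.y → u ∉ B.Wn → u ∈ B.L := by
        intro u hu h1 h2 h3
        rcases (B.adjx u).1 hu with h | h | h
        · exact absurd h h3
        · exact absurd h h2
        · exact h
      intro u v hu hv he
      by_cases hu1 : u = w <;> by_cases hv1 : v = w
      · rw [hu1, hv1]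
      · exfalso
        simp only [hu1, hv1, if_true, if_false] at he
        by_cases hv2 : v = B.y
        · simp only [hv2, if_true] at he; exact hmb w hw he.symm
        · by_cases hv3 : v ∈ B.Wn
          · simp only [hv2, hv3, if_true, if_false] at he; exact hmb v hv3 he.symm
          · simp only [hv2, hv3, if_false] at he
            exact hfree v (key v hv hv1 hv2 hv3) he.symm
      · exfalso
        simp only [hu1, hv1, if_true, if_false] at he
        by_cases hv2 : u = B.y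
        · simp only [hv2, if_true] at he; exact hmb w hw he
        · by_cases hv3 : u ∈ B.Wn
          · simp only [hv2, hv3, if_true, if_false] at he; exact hmb u hv3 he
          · simp only [hv2, hv3, if_false] at he
            exact hfree u (key u hu hu1 hv2 hv3) he
      · simp only [hu1, hv1, if_false] at he
        by_cases hu2 : u = B.y <;> by_cases hv2 : v = B.y
        · rw [hu2, hv2]
        · exfalso
          simp only [hu2, hv2, if_true, if_false] at he
          by_cases hv3 : v ∈ B.Wn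
          · simp only [hv3, if_true] at he
            exact hv1 (B.mi v hv3 w hw he.symm)
          · simp only [hv3, if_false] at he
            exact hg.2.2 v (key v hv hv1 hv2 hv3) ⟨w, hw, he⟩
        · exfalso
          simp only [hu2, hv2, if_true, if_false] at he
          by_cases hv3 : u ∈ B.Wn
          · simp only [hv3, if_true] at he
            exact hu1 (B.mi u hv3 w hw he)
          · simp only [hv3, if_false] at he
            exact hg.2.2 u (key u hu hu1 hu2 hv3) ⟨w, hw, he.symm⟩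
        · simp only [hu2, hv2, if_false] at he
          by_cases hu3 : u ∈ B.Wn <;> by_cases hv3 : v ∈ B.Wn
          · simp only [hu3, hv3, if_true] at he
            exact B.mi u hu3 v hv3 he
          · exfalso
            simp only [hu3, hv3, if_true, if_false] at he
            exact hg.2.2 v (key v hv hv1 hv2 hv3) ⟨u, hu3, he⟩
          · exfalso
            simp only [hu3, hv3, if_true, if_false] at he
            exact hg.2.2 u (key u hu hu1 hu2 hu3) ⟨v, hv3, he.symm⟩
          · simp only [hu3, hv3, if_false] at he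
            exact hg.2.1 u (key u hu hu1 hu2 hu3) v (key v hv hv1 hv2 hv3) he
  exact hex.elim B.nc


/-- swap at an end `l ∉ Wn ∪ {y}` with a colour of `W` and a colour outside keeps `Gd0`, if we know the
link. -/
theorem SW_aux {φ : ECol (dl B.G B.x) C} (h0 : B.Gd0 φ) {z : V} (hzW : z ∉ B.Wn) (hzy : z ≠ B.y)
    [DecidableEq C] {p q : C} (hz : Miss φ z p) 
    (hpq : ¬ (B.W p ∧ B.W q))
    (hl1 : ∀ w ∈ B.Wn, B.m w = p → Lk φ p q w B.y)
    (hl2 : ∀ w ∈ B.Wn, B.m w = q → Lk φ p q w B.y) :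
    B.Gd0 (kswap φ p q z) ∧ ((B.W p ∨ B.W q) → ¬ Lk φ p q z B.y) := by
  have key1 : ∀ w ∈ B.Wn, (B.m w = p ∨ B.m w = q) → ¬ Lk φ p q z B.y ∧ ¬ Lk φ p q z w := by
    intro w hw hm
    have hlk : Lk φ p q w B.y := by
      rcases hm with h | h
      · exact hl1 w hw h
      · exact hl2 w hw h
    have hwz : w ≠ z := by rintro rfl; exact hzW hw
    have hwy : w ≠ B.y := by rintro rfl; exact B.yW hw
    have hmw : Miss φ w p ∨ Miss φ w q := by
      rcases hm with h | h
      · left; rw [← h]; exact (h0.1 w hw _).2 rfl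
      · right; rw [← h]; exact (h0.1 w hw _).2 rfl
    have hmy : Miss φ B.y p ∨ Miss φ B.y q := by
      rcases hm with h | h
      · left; exact (h0.2 _).2 ⟨w, hw, h⟩
      · right; exact (h0.2 _).2 ⟨w, hw, h⟩
    have h3 : ¬ Lk φ p q z w := by
      intro hh
      exact three_ends φ p q w B.y z hwy hwz (Ne.symm hzy) hlk hh.symm hmw hmy (Or.inl hz)
    exact ⟨fun hh => h3 (hh.trans hlk.symm), h3⟩
  have key2 : (B.W p ∨ B.W q) → ¬ Lk φ p q z B.y := by
    rintro (⟨w, hw, h⟩ | ⟨w, hw, h⟩)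
    · exact (key1 w hw (Or.inl h)).1
    · exact (key1 w hw (Or.inr h)).1
  refine ⟨⟨?_, ?_⟩, key2⟩
  · intro w hw a
    by_cases hlw : Lk φ p q z w
    · have h1 : B.m w ≠ p := fun h => (key1 w hw (Or.inl h)).2 hlw
      have h2 : B.m w ≠ q := fun h => (key1 w hw (Or.inr h)).2 hlw
      rw [miss_kswap_in hlw, h0.1 w hw]
      constructor
      · intro h3
        have := congrArg (Equiv.swap p q) h3
        rwa [Equiv.swap_apply_self, Equiv.swap_apply_of_ne_of_ne h1 h2] at this
      · rintro rfl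
        exact Equiv.swap_apply_of_ne_of_ne h1 h2
    · rw [miss_kswap_out hlw, h0.1 w hw]
  · intro a
    by_cases hly : Lk φ p q z B.y
    · have h1 : ¬ B.W p := fun h => key2 (Or.inl h) hly
      have h2 : ¬ B.W q := fun h => key2 (Or.inr h) hly
      rw [miss_kswap_in hly, h0.2]
      by_cases ha : a = p
      · subst ha; rw [Equiv.swap_apply_left]; tauto
      · by_cases hb : a = q
        · subst hb; rw [Equiv.swap_apply_right]; tauto
        · rw [Equiv.swap_apply_of_ne_of_ne ha hb]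
    · rw [miss_kswap_out hly, h0.2]

/-- making a free colour `b` missing at the leaf `l`. -/
theorem unblock {φ : ECol (dl B.G B.x) C} (h0 : B.Gd0 φ) {g : V → C} (hg : B.SD φ g) 
    [DecidableEq C] {b : C} (hb : ¬ B.W b) (hfree : ∀ l ∈ B.L, g l ≠ b) {l : V} (hl : l ∈ B.L)
    {s : C} (hs : B.W s) (hls : Miss φ l s) :
    B.Gd0 (kswap φ s b l) ∧ B.SD (kswap φ s b l) g ∧ Miss (kswap φ s b l) l b := by
  have hsb : ¬ (B.W s ∧ B.W b) := fun h => hb h.2
  have hlW : l ∉ B.Wn := fun h => B.WL l h hl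
  have hly : l ≠ B.y := by rintro rfl; exact B.yL hl
  refine ⟨(B.SW_aux h0 hlW hly hls hsb ?_ ?_).1, ⟨?_, hg.2.1, hg.2.2⟩, ?_⟩
  · intro w hw hm
    subst hm
    exact B.L0 h0 hg hw hb hfree
  · intro w hw hm
    exact absurd ⟨w, hw, hm⟩ hb
  · intro l' hl'
    rw [miss_kswap_ne (fun he : g l' = s => hg.2.2 l' hl' (by rw [he]; exact hs)) (hfree l' hl')]
    exact hg.1 l' hl'
  · rw [miss_kswap_in (Lk.refl _ _ _ _), Equiv.swap_apply_right]
    exact hls

/-- (L): the link property. -/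
theorem LL {φ : ECol (dl B.G B.x) C} (h : B.Good φ) {w : V}
    (hw : w ∈ B.Wn) {b : C} (hb : ¬ B.W b) : Lk φ (B.m w) b w B.y := by
  classical
  obtain ⟨h0, g, hg⟩ := h
  obtain ⟨b0, hb0, hfree⟩ := B.exists_free hg
  by_cases hbf : ∀ l ∈ B.L, g l ≠ b
  · exact B.L0 h0 hg hw hb hbf
  push Not at hbf
  obtain ⟨l, hl, hgl⟩ := hbf
  have hbb : b ≠ b0 := by rintro rfl; exact hfree l hl hgl
  -- general finishing step
  have fin : ∀ ψ : ECol (dl B.G B.x) C, B.Gd0 ψ → B.SD ψ g → Miss ψ l b0 →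
      Lk ψ (B.m w) b w B.y := by
    intro ψ hψ hgψ hm
    have hg' : B.SD ψ (Function.update g l b0) := by
      refine ⟨?_, ?_, ?_⟩
      · intro l' hl'
        by_cases h1 : l' = l
        · subst h1; simpa using hm
        · rw [Function.update_of_ne h1]; exact hgψ.1 l' hl'
      · intro l1 hl1 l2 hl2 he
        by_cases h1 : l1 = l <;> by_cases h2 : l2 = l
        · rw [h1, h2]
        · subst h1
          rw [Function.update_self, Function.update_of_ne h2] at he
          exact absurd he.symm (hfree l2 hl2)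
        · subst h2
          rw [Function.update_self, Function.update_of_ne h1] at he
          exact absurd he (hfree l1 hl1)
        · rw [Function.update_of_ne h1, Function.update_of_ne h2] at he
          exact hgψ.2.1 l1 hl1 l2 hl2 he
      · intro l' hl'
        by_cases h1 : l' = l
        · subst h1; simpa using hb0
        · rw [Function.update_of_ne h1]; exact hgψ.2.2 l' hl'
    refine B.L0 hψ hg' hw hb ?_
    intro l' hl' he
    by_cases h1 : l' = l
    · subst h1; rw [Function.update_self] at he; exact hbb he.symm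
    · rw [Function.update_of_ne h1] at he
      exact h1 (hgψ.2.1 l' hl' l hl (he.trans hgl.symm))
  by_cases hm : Miss φ l b0
  · exact fin φ h0 hg hm
  obtain ⟨s, hls, hs, hsP⟩ := B.two_in_W φ hl hb0 hm {B.m w} (by
    intro a ha a' ha' _ _
    rw [Finset.mem_singleton] at ha ha'
    rw [ha, ha'])
  rw [Finset.mem_singleton] at hsP
  obtain ⟨h1, h2, h3⟩ := B.unblock h0 hg hb0 hfree hl hs hls
  have h4 := fin _ h1 h2 h3
  have hmw : B.W (B.m w) := ⟨w, hw, rfl⟩
  have hA1 : Ag φ (kswap φ s b0 l) (B.m w) :=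
    Ag_kswap l (Ne.symm hsP) (fun he => hb0 (he ▸ hmw))
  have hA2 : Ag φ (kswap φ s b0 l) b :=
    Ag_kswap l (fun he => hb (he ▸ hs)) hbb
  exact (Ag.Lk hA1 hA2 _ _).2 h4

/-- swap at an end outside `Wn ∪ {y}`. -/
theorem SW [DecidableEq C] {φ : ECol (dl B.G B.x) C} (h : B.Good φ) {z : V} (hzW : z ∉ B.Wn)
    (hzy : z ≠ B.y) {p q : C} (hz : Miss φ z p) (hpq : ¬ (B.W p ∧ B.W q)) :
    B.Gd0 (kswap φ p q z) ∧ ((B.W p ∨ B.W q) → ¬ Lk φ p q z B.y) := by
  refine B.SW_aux h.1 hzW hzy hz hpq ?_ ?_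
  · intro w hw hm
    subst hm
    exact B.LL h hw (fun hq => hpq ⟨⟨w, hw, rfl⟩, hq⟩)
  · intro w hw hm
    subst hm
    rw [Lk_comm]
    exact B.LL h hw (fun hp => hpq ⟨hp, ⟨w, hw, rfl⟩⟩)

theorem nr_kswap [DecidableEq C] {φ : ECol (dl B.G B.x) C} {z : V} {p q : C}
    (hz : Miss φ z p ∨ Miss φ z q) : B.nr φ (kswap φ p q z) 2 := by
  classical
  intro η _
  unfold cnt
  have hsub : B.L.filter (fun l => Miss φ l η) ⊆ B.L.filter (fun l => Miss (kswap φ p q z) l η) ∪
      B.L.filter (fun l => Miss φ l η ∧ ¬ Miss (kswap φ p q z) l η) := by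
    intro l hl
    simp only [Finset.mem_filter, Finset.mem_union] at hl ⊢
    tauto
  refine (Finset.card_le_card hsub).trans ((Finset.card_union_le _ _).trans ?_)
  have : (B.L.filter (fun l => Miss φ l η ∧ ¬ Miss (kswap φ p q z) l η)).card ≤ 2 := by
    by_contra hcon
    push Not at hcon
    obtain ⟨a, ha, b, hb, c, hc, hab, hac, hbc⟩ := Finset.two_lt_card.1 hcon
    have key : ∀ l, l ∈ (B.L.filter (fun l => Miss φ l η ∧ ¬ Miss (kswap φ p q z) l η)) →
        Lk φ p q z l ∧ (Miss φ l p ∨ Miss φ l q) := by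
      intro l hl
      simp only [Finset.mem_filter] at hl
      obtain ⟨_, h1, h2⟩ := hl
      have h3 : Lk φ p q z l := by
        by_contra h3
        exact h2 ((miss_kswap_out h3 η).2 h1)
      refine ⟨h3, ?_⟩
      by_cases hp : η = p
      · subst hp; exact Or.inl h1
      · by_cases hq : η = q
        · subst hq; exact Or.inr h1
        · exact absurd ((miss_kswap_ne hp hq).2 h1) h2
    have ka := key a ha
    have kb := key b hb
    have kc := key c hc
    exact three_ends φ p q a b c hab hac hbc (ka.1.symm.trans kb.1) (ka.1.symm.trans kc.1)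
      ka.2 kb.2 kc.2
  omega


/-- information about a leaf whose representative is lost in a swap. -/
theorem lost [DecidableEq C] {φ : ECol (dl B.G B.x) C} {g : V → C} (hg : B.SD φ g) {z : V}
    {p q : C} (hq : ¬ Miss φ z q) (hzL : z ∈ B.L → B.W p) {l : V}
    (hl : l ∈ B.L) (hm : ¬ Miss (kswap φ p q z) l (g l)) :
    Lk φ p q z l ∧ (g l = p ∨ g l = q) ∧ l ≠ z := by
  have h1 : Lk φ p q z l := by
    by_contra h
    exact hm ((miss_kswap_out h _).2 (hg.1 l hl))
  have h2 : g l = p ∨ g l = q := by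
    by_contra h
    push Not at h
    exact hm ((miss_kswap_ne h.1 h.2).2 (hg.1 l hl))
  refine ⟨h1, h2, ?_⟩
  rintro rfl
  rcases h2 with h2 | h2
  · exact hg.2.2 l hl (h2 ▸ hzL hl)
  · exact hq (h2 ▸ hg.1 l hl)

theorem lost_unique [DecidableEq C] {φ : ECol (dl B.G B.x) C} {g : V → C} (hg : B.SD φ g) {z : V}
    {p q : C} (hp : Miss φ z p) (hq : ¬ Miss φ z q) (hzL : z ∈ B.L → B.W p) {l l' : V}
    (hl : l ∈ B.L) (hm : ¬ Miss (kswap φ p q z) l (g l))
    (hl' : l' ∈ B.L) (hm' : ¬ Miss (kswap φ p q z) l' (g l')) : l = l' := by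
  by_contra hne
  obtain ⟨h1, h2, h3⟩ := B.lost hg hq hzL hl hm
  obtain ⟨h1', h2', h3'⟩ := B.lost hg hq hzL hl' hm'
  have e1 : Miss φ l p ∨ Miss φ l q := by
    rcases h2 with h | h
    · left; rw [← h]; exact hg.1 l hl
    · right; rw [← h]; exact hg.1 l hl
  have e2 : Miss φ l' p ∨ Miss φ l' q := by
    rcases h2' with h | h
    · left; rw [← h]; exact hg.1 l' hl'
    · right; rw [← h]; exact hg.1 l' hl'
  exact three_ends φ p q z l l' (Ne.symm h3) (Ne.symm h3') hne h1 h1' (Or.inl hp) e1 e2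

/-- replacing the representative of `l` by `b`. -/
theorem SD_update {ψ : ECol (dl B.G B.x) C} {g : V → C} {l : V} (hl : l ∈ B.L) {b : C}
    [DecidableEq V]
    (hb : ¬ B.W b) (hfree : ∀ l ∈ B.L, g l ≠ b) (hinj : ∀ l ∈ B.L, ∀ l' ∈ B.L, g l = g l' → l = l')
    (hW : ∀ l ∈ B.L, ¬ B.W (g l)) (hml : Miss ψ l b) (hm : ∀ l' ∈ B.L, l' ≠ l → Miss ψ l' (g l')) :
    B.SD ψ (Function.update g l b) := by
  refine ⟨?_, ?_, ?_⟩
  · intro l' hl'
    by_cases h1 : l' = l
    · subst h1; simpa using hml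
    · rw [Function.update_of_ne h1]; exact hm l' hl' h1
  · intro l1 hl1 l2 hl2 he
    by_cases h1 : l1 = l <;> by_cases h2 : l2 = l
    · rw [h1, h2]
    · subst h1
      rw [Function.update_self, Function.update_of_ne h2] at he
      exact absurd he.symm (hfree l2 hl2)
    · subst h2
      rw [Function.update_self, Function.update_of_ne h1] at he
      exact absurd he (hfree l1 hl1)
    · rw [Function.update_of_ne h1, Function.update_of_ne h2] at he
      exact hinj l1 hl1 l2 hl2 he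
  · intro l' hl'
    by_cases h1 : l' = l
    · subst h1; simpa using hb
    · rw [Function.update_of_ne h1]; exact hW l' hl'

/-- (FS) the free swap, first form. -/
theorem FS1 [DecidableEq C] {φ : ECol (dl B.G B.x) C} (h : B.Good φ) {z : V} (hzW : z ∉ B.Wn)
    (hzy : z ≠ B.y) {p q : C} (hp : Miss φ z p) (hq : ¬ Miss φ z q) (hpq : ¬ (B.W p ∧ B.W q))
    (hzL : z ∈ B.L → B.W p) (P : Finset C)
    (hP : ∀ a ∈ P, ∀ a' ∈ P, B.W a → B.W a' → a = a') (hA : B.Av φ P) :
    ∃ φ1 : ECol (dl B.G B.x) C, B.Good φ1 ∧ (∀ d ∈ P, Ag φ φ1 d) ∧ Ag φ φ1 p ∧ Ag φ φ1 q ∧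
      B.Good (kswap φ1 p q z) ∧ B.nr φ φ1 2 := by
  classical
  obtain ⟨g, hg, b, hb, hbP, hfree⟩ := hA
  have hsw := B.SW h hzW hzy hp hpq
  have triv : (∃ g', B.SD (kswap φ p q z) g') → 
      ∃ φ1 : ECol (dl B.G B.x) C, B.Good φ1 ∧ (∀ d ∈ P, Ag φ φ1 d) ∧ Ag φ φ1 p ∧ Ag φ φ1 q ∧
      B.Good (kswap φ1 p q z) ∧ B.nr φ φ1 2 := by
    rintro ⟨g', hg'⟩
    exact ⟨φ, h, fun d _ => Ag.refl φ d, Ag.refl φ p, Ag.refl φ q, ⟨hsw.1, g', hg'⟩,
      fun η _ => Nat.le_add_right _ _⟩
  by_cases hall : ∀ l ∈ B.L, Miss (kswap φ p q z) l (g l)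
  · exact triv ⟨g, hall, hg.2.1, hg.2.2⟩
  push Not at hall
  obtain ⟨l, hl, hml⟩ := hall
  have hother : ∀ l' ∈ B.L, l' ≠ l → Miss (kswap φ p q z) l' (g l') := by
    intro l' hl' hne
    by_contra hm'
    exact hne (B.lost_unique hg hp hq hzL hl' hm' hl hml)
  obtain ⟨hlk, hgl, hlz⟩ := B.lost hg hq hzL hl hml
  by_cases hbl : Miss (kswap φ p q z) l b
  · exact triv ⟨_, B.SD_update hl hb hfree hg.2.1 hg.2.2 hbl hother⟩
  -- `b ∉ {p, q}`
  have hgb := hfree l hl
  have hbp : b ≠ p := by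
    rintro rfl
    rcases hgl with h1 | h1
    · exact hgb h1
    · apply hbl
      rw [miss_kswap_in hlk, Equiv.swap_apply_left, ← h1]
      exact hg.1 l hl
  have hbq : b ≠ q := by
    rintro rfl
    rcases hgl with h1 | h1
    · apply hbl
      rw [miss_kswap_in hlk, Equiv.swap_apply_right, ← h1]
      exact hg.1 l hl
    · exact hgb h1
  have hbl' : ¬ Miss φ l b := fun hh => hbl ((miss_kswap_ne hbp hbq).2 hh)
  obtain ⟨s, hls, hs, hsP⟩ := B.two_in_W φ hl hb hbl' P hP
  have hsp : s ≠ p := by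
    rintro rfl
    rcases hgl with h1 | h1
    · exact hg.2.2 l hl (by rw [h1]; exact hs)
    · apply hml
      rw [h1, miss_kswap_in hlk, Equiv.swap_apply_right]
      exact hls
  have hsq : s ≠ q := by
    rintro rfl
    rcases hgl with h1 | h1
    · apply hml
      rw [h1, miss_kswap_in hlk, Equiv.swap_apply_left]
      exact hls
    · exact hg.2.2 l hl (by rw [h1]; exact hs)
  obtain ⟨k1, k2, k3⟩ := B.unblock h.1 hg hb hfree hl hs hls
  have hG1 : B.Good (kswap φ s b l) := ⟨k1, g, k2⟩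
  have hAp : Ag φ (kswap φ s b l) p := Ag_kswap l (Ne.symm hsp) (Ne.symm hbp)
  have hAq : Ag φ (kswap φ s b l) q := Ag_kswap l (Ne.symm hsq) (Ne.symm hbq)
  have hp1 : Miss (kswap φ s b l) z p := (hAp.miss z).1 hp
  have hq1 : ¬ Miss (kswap φ s b l) z q := fun hh => hq ((hAq.miss z).2 hh)
  have hsw1 := B.SW hG1 hzW hzy hp1 hpq
  refine ⟨kswap φ s b l, hG1, ?_, hAp, hAq, ⟨hsw1.1, _, B.SD_update (l := l) hl hb hfree
    hg.2.1 hg.2.2 ((miss_kswap_ne hbp hbq).2 k3) ?_⟩, B.nr_kswap (Or.inl hls)⟩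
  · intro d hd
    exact Ag_kswap l (fun he => hsP (he ▸ hd)) (fun he => hbP (he ▸ hd))
  · intro l' hl' hne
    by_contra hm'
    obtain ⟨j1, j2, j3⟩ := B.lost k2 hq1 hzL hl' hm'
    have hlk1 : Lk (kswap φ s b l) p q z l := (Ag.Lk hAp hAq _ _).1 hlk
    have e1 : Miss (kswap φ s b l) l p ∨ Miss (kswap φ s b l) l q := by
      rcases hgl with h | h
      · left; rw [← h]; exact k2.1 l hl
      · right; rw [← h]; exact k2.1 l hl
    have e2 : Miss (kswap φ s b l) l' p ∨ Miss (kswap φ s b l) l' q := by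
      rcases j2 with h | h
      · left; rw [← h]; exact k2.1 l' hl'
      · right; rw [← h]; exact k2.1 l' hl'
    exact three_ends _ p q z l l' (Ne.symm hlz) (Ne.symm j3) (Ne.symm hne) hlk1 j1
      (Or.inl hp1) e1 e2

/-- (FS) the free swap: `z` misses `p` and not `q`; after it, `z` misses `q`. The colours of `P` other
than `p`, `q` are unchanged, and `p`, `q` are exchanged exactly on the `p`-`q`-component of `z`. -/
theorem FS [DecidableEq C] {φ : ECol (dl B.G B.x) C} (h : B.Good φ) {z : V} (hzW : z ∉ B.Wn)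
    (hzy : z ≠ B.y) {p q : C} (hp : Miss φ z p) (hq : ¬ Miss φ z q) (hpq : ¬ (B.W p ∧ B.W q))
    (hzL : z ∈ B.L → B.W p) (P : Finset C)
    (hP : ∀ a ∈ P, ∀ a' ∈ P, B.W a → B.W a' → a = a') (hA : B.Av φ P) :
    ∃ ψ : ECol (dl B.G B.x) C, B.Good ψ ∧ B.nr φ ψ 4 ∧
      (∀ d ∈ P, d ≠ p → d ≠ q → Ag φ ψ d) ∧ Miss ψ z q ∧
      (∀ u v, (dl B.G B.x).Adj u v → Lk φ p q z u → φ.c u v = q → ψ.c u v = p) ∧
      (∀ u v, (dl B.G B.x).Adj u v → Lk φ p q z u → φ.c u v = p → ψ.c u v = q) ∧
      (∀ u v, (dl B.G B.x).Adj u v → ¬ Lk φ p q z u → φ.c u v = q → ψ.c u v = q) ∧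
      (∀ u v, (dl B.G B.x).Adj u v → ¬ Lk φ p q z u → φ.c u v = p → ψ.c u v = p) ∧
      ((B.W p ∨ B.W q) → ¬ Lk φ p q z B.y) := by
  obtain ⟨φ1, hG1, hAP, hAp, hAq, hG2, hn⟩ := B.FS1 h hzW hzy hp hq hpq hzL P hP hA
  have hp1 : Miss φ1 z p := (hAp.miss z).1 hp
  refine ⟨kswap φ1 p q z, hG2, B.nr_trans hn (B.nr_kswap (Or.inl hp1)), ?_, ?_, ?_, ?_, ?_, ?_,
    (B.SW h hzW hzy hp hpq).2⟩
  · intro d hd h1 h2
    exact (hAP d hd).trans (Ag_kswap z h1 h2)
  · rw [miss_kswap_in (Lk.refl _ _ _ _), Equiv.swap_apply_right]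
    exact hp1
  · intro u v huv hlk hc
    have h1 : Lk φ1 p q z u := (Ag.Lk hAp hAq _ _).1 hlk
    rw [kswap_c_in h1, (hAq u v huv).1 hc, Equiv.swap_apply_right]
  · intro u v huv hlk hc
    have h1 : Lk φ1 p q z u := (Ag.Lk hAp hAq _ _).1 hlk
    rw [kswap_c_in h1, (hAp u v huv).1 hc, Equiv.swap_apply_left]
  · intro u v huv hlk hc
    have h1 : ¬ Lk φ1 p q z u := fun hh => hlk ((Ag.Lk hAp hAq _ _).2 hh)
    rw [kswap_c_out h1, (hAq u v huv).1 hc]
  · intro u v huv hlk hc
    have h1 : ¬ Lk φ1 p q z u := fun hh => hlk ((Ag.Lk hAp hAq _ _).2 hh)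
    rw [kswap_c_out h1, (hAp u v huv).1 hc]

end Base

end Pool.Agent.H231EC
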