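import Mathlib
import Pool.Agent.H231EC.Env0

set_option autoImplicit false

namespace Pool.Agent.H231EC

open Finset

namespace Base

variable {V C : Type} [Fintype V] [Fintype C] {k : ℕ} {B : Base V C k}

theorem W_of_mem {v : V} (hv : v ∈ B.Wn) : B.W (B.m v) := ⟨v, hv, rfl⟩

theorem ne_x_of_mem {v : V} (hv : v ∈ B.Wn) : v ≠ B.x := by
  rintro rfl
  exact B.G.loopless.irrefl _ ((B.adjx _).2 (Or.inl hv))

theorem y_ne_x : B.y ≠ B.x := by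
  intro h
  exact B.G.loopless.irrefl B.x (h ▸ (B.adjx B.y).2 (Or.inr (Or.inl rfl)))

/-- choose a missing colour different from `e`. -/
theorem exists_miss_ne {ψ : ECol (dl B.G B.x) C} {z : V} (hm : k ≤ nm ψ z + 1) (hk : 10 ≤ k) (e : C) :
    ∃ μ, Miss ψ z μ ∧ μ ≠ e := by
  classical
  by_contra hcon
  push Not at hcon
  have h1 : (Finset.univ.filter (fun a => Miss ψ z a)) ⊆ {e} := by
    intro a ha
    simp only [Finset.mem_filter, Finset.mem_univ, true_and] at ha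
    rw [Finset.mem_singleton]
    exact hcon a ha
  have h2 := Finset.card_le_card h1
  rw [Finset.card_singleton] at h2
  unfold nm at hm
  have : (Finset.univ.filter (fun a => Miss ψ z a)).card ≤ 1 := h2
  omega

/-- choose a colour outside `W` different from `a` and `b`. -/
theorem exists_nW (hk : 10 ≤ k) (a b : C) : ∃ c, ¬ B.W c ∧ c ≠ a ∧ c ≠ b := by
  classical
  by_contra hcon
  push Not at hcon
  have h1 : (Finset.univ.filter (fun c => ¬ B.W c)) ⊆ {a, b} := by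
    intro c hc
    simp only [Finset.mem_filter, Finset.mem_univ, true_and] at hc
    rw [Finset.mem_insert, Finset.mem_singleton]
    by_cases h : c = a
    · exact Or.inl h
    · exact Or.inr (hcon c hc h)
  have h2 := Finset.card_le_card h1
  rw [B.card_Wc] at h2
  have h3 : ({a, b} : Finset C).card ≤ 2 := Finset.card_le_two
  omega

theorem exists_Q (E : B.Env) (hQ : 3 ≤ E.Q.card) (a : C) : ∃ c ∈ E.Q, c ≠ a := by
  classical
  by_contra hcon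
  push Not at hcon
  have h1 : E.Q ⊆ {a} := by
    intro c hc
    rw [Finset.mem_singleton]
    exact hcon c hc
  have h2 := Finset.card_le_card h1
  rw [Finset.card_singleton] at h2
  omega

/-- A0 -/
theorem cA0 {φ : ECol (dl B.G B.x) C} (h : B.Good φ) {v s z : V} (hv : v ∈ B.Wn)
    (hvs : B.G.Adj v s) (hsx : s ≠ B.x) (hsz : B.G.Adj s z) (hzx : z ≠ B.x) (hzW : z ∉ B.Wn)
    (hzy : z ≠ B.y) (he : ¬ B.W (φ.c v s)) (hez : Miss φ z (φ.c v s))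
    (hsz' : φ.c s z = B.m v) : False := by
  classical
  have hvx := ne_x_of_mem hv
  have a1 : (dl B.G B.x).Adj v s := ⟨hvs, hvx, hsx⟩
  have a2 : (dl B.G B.x).Adj s z := ⟨hsz, hsx, hzx⟩
  have l1 : Lk φ (B.m v) (φ.c v s) v s := Lk.of_edge a1 (Or.inr rfl)
  have l2 : Lk φ (B.m v) (φ.c v s) s z := Lk.of_edge a2 (Or.inl hsz')
  have l3 := B.LL h hv he
  exact three_ends φ (B.m v) (φ.c v s) v z B.y (fun h => hzW (h ▸ hv)) (fun h => B.yW (h ▸ hv))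
    hzy (l1.trans l2) l3 (Or.inl ((h.1.1 v hv _).2 rfl)) (Or.inr hez)
    (Or.inl ((h.1.2 _).2 (W_of_mem hv)))

variable (E : B.Env)

/-- A4 -/
theorem cA4 (hn : 2 ≤ E.n) {r : ℕ} (hr : r + 4 ≤ 40)
    {φ : ECol (dl B.G B.x) C} (hT : E.T r φ) {v s z : V} (hv : v ∈ B.Wn) (hvs : B.G.Adj v s)
    (hsx : s ≠ B.x) (hsz : B.G.Adj s z) (hzx : z ≠ B.x) (hzW : z ∉ B.Wn) (hzy : z ≠ B.y)
    (hzL : z ∉ B.L) 
    (he : φ.c v s ∈ E.Q) (hez : Miss φ z (φ.c v s)) (hγ : Miss φ z (B.m v))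
    (hη : ¬ B.W (φ.c s z)) : False := by
  classical
  have hvx := ne_x_of_mem hv
  have a1 : (dl B.G B.x).Adj v s := ⟨hvs, hvx, hsx⟩
  have a2 : (dl B.G B.x).Adj s z := ⟨hsz, hsx, hzx⟩
  have hWe := E.qW _ he
  have hne1 : φ.c v s ≠ B.m v := fun h => hWe (h ▸ W_of_mem hv)
  have hne2 : φ.c v s ≠ φ.c s z := fun h => not_miss_of_edge' a2 (h ▸ hez)
  obtain ⟨ψ, h1, h2, h3, h4, h5, h6⟩ := E.FS (by omega) hT hzW hzy hzL hγ (not_miss_of_edge' a2)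
    (fun h => hη h.2) {φ.c v s} (by
      intro a ha a' ha' _ _
      rw [Finset.mem_singleton] at ha ha'
      rw [ha, ha']) ⟨{φ.c v s}, by rw [Finset.card_singleton]; omega, fun a ha _ => ha⟩
    (by intro a ha _; rw [Finset.mem_singleton] at ha; rw [ha]; exact he)
  have hAe := h2 _ (Finset.mem_singleton_self _) hne1 hne2
  have e1 : ψ.c v s = φ.c v s := (hAe v s a1).1 rfl
  have e2 : ψ.c s z = B.m v := by
    rw [ψ.symm s z a2]
    exact h4 z s a2.symm (Lk.refl _ _ _ _) (by rw [← φ.symm s z a2])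
  refine cA0 (E.good _ _ h1) hv hvs hsx hsz hzx hzW hzy ?_ ?_ e2
  · rw [e1]; exact hWe
  · rw [e1]; exact (hAe.miss z).1 hez

/-- A3b -/
theorem cA3b (hn : 2 ≤ E.n) {r : ℕ} (hr : r + 8 ≤ 40)
    {φ : ECol (dl B.G B.x) C} (hT : E.T r φ) {v s z : V} (hv : v ∈ B.Wn) (hvs : B.G.Adj v s)
    (hsx : s ≠ B.x) (hsz : B.G.Adj s z) (hzx : z ≠ B.x) (hzW : z ∉ B.Wn) (hzy : z ≠ B.y)
    (hzL : z ∉ B.L) 
    (he : φ.c v s ∈ E.Q) (hez : Miss φ z (φ.c v s))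
    (hη : φ.c s z ∈ E.Q) {η2 : C} (hη2 : ¬ B.W η2) (hη2e : η2 ≠ φ.c v s) (hη2z : Miss φ z η2) :
    False := by
  classical
  have hvx := ne_x_of_mem hv
  have a1 : (dl B.G B.x).Adj v s := ⟨hvs, hvx, hsx⟩
  have a2 : (dl B.G B.x).Adj s z := ⟨hsz, hsx, hzx⟩
  have hWe := E.qW _ he
  have hWη := E.qW _ hη
  by_cases hγ : Miss φ z (B.m v)
  · exact cA4 E hn (by omega) hT hv hvs hsx hsz hzx hzW hzy hzL he hez hγ hWη
  have hne1 : φ.c v s ≠ B.m v := fun h => hWe (h ▸ W_of_mem hv)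
  have hne3 : φ.c s z ≠ B.m v := fun h => hWη (h ▸ W_of_mem hv)
  have hne2 : φ.c s z ≠ η2 := fun h => not_miss_of_edge' a2 (h ▸ hη2z)
  obtain ⟨ψ, h1, h2, h3, h4, h5, h6⟩ := E.FS (by omega) hT hzW hzy hzL hη2z hγ
    (fun h => hη2 h.1) {φ.c v s, φ.c s z} (by
      intro a ha a' ha' hw _
      rw [Finset.mem_insert, Finset.mem_singleton] at ha
      rcases ha with rfl | rfl
      · exact absurd hw hWe
      · exact absurd hw hWη) ⟨{φ.c v s, φ.c s z}, Finset.card_le_two.trans hn, fun a ha _ => ha⟩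
    (by
      intro a ha _
      rw [Finset.mem_insert, Finset.mem_singleton] at ha
      rcases ha with rfl | rfl
      · exact he
      · exact hη)
  have hAe := h2 (φ.c v s) (by simp) (Ne.symm hη2e) hne1
  have hAη := h2 (φ.c s z) (by simp) hne2 hne3
  have e1 : ψ.c v s = φ.c v s := (hAe v s a1).1 rfl
  have e2 : ψ.c s z = φ.c s z := (hAη s z a2).1 rfl
  refine cA4 E hn (by omega) h1 hv hvs hsx hsz hzx hzW hzy hzL ?_ ?_ h3 ?_
  · rw [e1]; exact he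
  · rw [e1]; exact (hAe.miss z).1 hez
  · rw [e2]; exact hWη

/-- A3 -/
theorem cA3 (hn : 2 ≤ E.n) {r : ℕ} (hr : r + 12 ≤ 40)
    {φ : ECol (dl B.G B.x) C} (hT : E.T r φ) {v s z : V} (hv : v ∈ B.Wn) (hvs : B.G.Adj v s)
    (hsx : s ≠ B.x) (hsz : B.G.Adj s z) (hzx : z ≠ B.x) (hzW : z ∉ B.Wn) (hzy : z ≠ B.y)
    (hzL : z ∉ B.L) (hm : ∀ ψ : ECol (dl B.G B.x) C, k ≤ nm ψ z + 1) (hk : 10 ≤ k)
    (he : φ.c v s ∈ E.Q) (hez : Miss φ z (φ.c v s))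
    (hη : φ.c s z ∈ E.Q) : False := by
  classical
  have hvx := ne_x_of_mem hv
  have a1 : (dl B.G B.x).Adj v s := ⟨hvs, hvx, hsx⟩
  have a2 : (dl B.G B.x).Adj s z := ⟨hsz, hsx, hzx⟩
  have hWe := E.qW _ he
  have hWη := E.qW _ hη
  obtain ⟨η2, hη2, hη2e, hη2η⟩ := exists_nW (B := B) hk (φ.c v s) (φ.c s z)
  by_cases hη2z : Miss φ z η2
  · exact cA3b E hn (by omega) hT hv hvs hsx hsz hzx hzW hzy hzL he hez hη hη2 hη2e hη2z
  obtain ⟨μ, hμ, hμe⟩ := exists_miss_ne (hm φ) hk (φ.c v s)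
  have hne2 : φ.c s z ≠ μ := fun h => not_miss_of_edge' a2 (h ▸ hμ)
  obtain ⟨ψ, h1, h2, h3, h4, h5, h6⟩ := E.FS (by omega) hT hzW hzy hzL hμ hη2z
    (fun h => hη2 h.2) {φ.c v s, φ.c s z} (by
      intro a ha a' ha' hw _
      rw [Finset.mem_insert, Finset.mem_singleton] at ha
      rcases ha with rfl | rfl
      · exact absurd hw hWe
      · exact absurd hw hWη) ⟨{φ.c v s, φ.c s z}, Finset.card_le_two.trans hn, fun a ha _ => ha⟩
    (by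
      intro a ha _
      rw [Finset.mem_insert, Finset.mem_singleton] at ha
      rcases ha with rfl | rfl
      · exact he
      · exact hη)
  have hAe := h2 (φ.c v s) (by simp) (Ne.symm hμe) (Ne.symm hη2e)
  have hAη := h2 (φ.c s z) (by simp) hne2 (Ne.symm hη2η)
  have e1 : ψ.c v s = φ.c v s := (hAe v s a1).1 rfl
  have e2 : ψ.c s z = φ.c s z := (hAη s z a2).1 rfl
  refine cA3b E hn (by omega) h1 hv hvs hsx hsz hzx hzW hzy hzL ?_ ?_ ?_ hη2 ?_ h3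
  · rw [e1]; exact he
  · rw [e1]; exact (hAe.miss z).1 hez
  · rw [e2]; exact hη
  · rw [e1]; exact hη2e

/-- A2 -/
theorem cA2 (hn : 2 ≤ E.n) {r : ℕ} (hr : r + 16 ≤ 40)
    {φ : ECol (dl B.G B.x) C} (hT : E.T r φ) {v s z : V} (hv : v ∈ B.Wn) (hvs : B.G.Adj v s)
    (hsx : s ≠ B.x) (hsz : B.G.Adj s z) (hzx : z ≠ B.x) (hzW : z ∉ B.Wn) (hzy : z ≠ B.y)
    (hzL : z ∉ B.L) (hm : ∀ ψ : ECol (dl B.G B.x) C, k ≤ nm ψ z + 1) (hk : 10 ≤ k)
    (he : φ.c v s ∈ E.Q) (hez : Miss φ z (φ.c v s))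
    {η : C} (hη : η ∈ E.Q) (hηe : η ≠ φ.c v s) (hηz : Miss φ z η) : False := by
  classical
  have hvx := ne_x_of_mem hv
  have a1 : (dl B.G B.x).Adj v s := ⟨hvs, hvx, hsx⟩
  have a2 : (dl B.G B.x).Adj s z := ⟨hsz, hsx, hzx⟩
  have hWe := E.qW _ he
  have hne2 : φ.c v s ≠ φ.c s z := fun h => not_miss_of_edge' a2 (h ▸ hez)
  obtain ⟨ψ, h1, h2, h3, h4, h5, h6⟩ := E.FS (by omega) hT hzW hzy hzL hηz (not_miss_of_edge' a2)
    (fun h => E.qW _ hη h.1) {φ.c v s} (by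
      intro a ha a' ha' _ _
      rw [Finset.mem_singleton] at ha ha'
      rw [ha, ha']) ⟨{φ.c v s}, by rw [Finset.card_singleton]; omega, fun a ha _ => ha⟩
    (by intro a ha _; rw [Finset.mem_singleton] at ha; rw [ha]; exact he)
  have hAe := h2 _ (Finset.mem_singleton_self _) (Ne.symm hηe) hne2
  have e1 : ψ.c v s = φ.c v s := (hAe v s a1).1 rfl
  have e2 : ψ.c s z = η := by
    rw [ψ.symm s z a2]
    exact h4 z s a2.symm (Lk.refl _ _ _ _) (by rw [← φ.symm s z a2])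
  refine cA3 E hn (by omega) h1 hv hvs hsx hsz hzx hzW hzy hzL hm hk ?_ ?_ ?_
  · rw [e1]; exact he
  · rw [e1]; exact (hAe.miss z).1 hez
  · rw [e2]; exact hη

theorem claimA (E : B.Env) (hn : 2 ≤ E.n) (hQ : 3 ≤ E.Q.card) {r : ℕ} (hr : r + 20 ≤ 40)
    {φ : ECol (dl B.G B.x) C} (hT : E.T r φ) {v s z : V} (hv : v ∈ B.Wn) (hvs : B.G.Adj v s)
    (hsx : s ≠ B.x) (hsz : B.G.Adj s z) (hzx : z ≠ B.x) (hzW : z ∉ B.Wn) (hzy : z ≠ B.y)
    (hzL : z ∉ B.L) (hm : ∀ ψ : ECol (dl B.G B.x) C, k ≤ nm ψ z + 1) (hk : 10 ≤ k)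
    (he : φ.c v s ∈ E.Q) (hez : Miss φ z (φ.c v s)) : False := by
  classical
  have hvx := ne_x_of_mem hv
  have a1 : (dl B.G B.x).Adj v s := ⟨hvs, hvx, hsx⟩
  have a2 : (dl B.G B.x).Adj s z := ⟨hsz, hsx, hzx⟩
  obtain ⟨η, hη, hηe⟩ := exists_Q E hQ (φ.c v s)
  by_cases hηz : Miss φ z η
  · exact cA2 E hn (by omega) hT hv hvs hsx hsz hzx hzW hzy hzL hm hk he hez hη hηe hηz
  obtain ⟨μ, hμ, hμe⟩ := exists_miss_ne (hm φ) hk (φ.c v s)
  obtain ⟨ψ, h1, h2, h3, h4, h5, h6⟩ := E.FS (by omega) hT hzW hzy hzL hμ hηz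
    (fun h => E.qW _ hη h.2) {φ.c v s} (by
      intro a ha a' ha' _ _
      rw [Finset.mem_singleton] at ha ha'
      rw [ha, ha']) ⟨{φ.c v s}, by rw [Finset.card_singleton]; omega, fun a ha _ => ha⟩
    (by intro a ha _; rw [Finset.mem_singleton] at ha; rw [ha]; exact he)
  have hAe := h2 _ (Finset.mem_singleton_self _) (Ne.symm hμe) (Ne.symm hηe)
  have e1 : ψ.c v s = φ.c v s := (hAe v s a1).1 rfl
  refine cA2 E hn (by omega) h1 hv hvs hsx hsz hzx hzW hzy hzL hm hk ?_ ?_ hη ?_ h3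
  · rw [e1]; exact he
  · rw [e1]; exact (hAe.miss z).1 hez
  · rw [e1]; exact hηe

/-- B3 -/
theorem cB3 (hn : 2 ≤ E.n) (hQ : 3 ≤ E.Q.card) {r : ℕ} (hr : r + 24 ≤ 40)
    {φ : ECol (dl B.G B.x) C} (hT : E.T r φ) {v s z : V} (hv : v ∈ B.Wn) (hvs : B.G.Adj v s)
    (hsx : s ≠ B.x) (hsz : B.G.Adj s z) (hzx : z ≠ B.x) (hzW : z ∉ B.Wn) (hzy : z ≠ B.y)
    (hzL : z ∉ B.L) (hm : ∀ ψ : ECol (dl B.G B.x) C, k ≤ nm ψ z + 1) (hk : 10 ≤ k)
    (hez : Miss φ z (φ.c v s)) (hη : φ.c s z ∈ E.Q) : False := by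
  classical
  have hvx := ne_x_of_mem hv
  have a1 : (dl B.G B.x).Adj v s := ⟨hvs, hvx, hsx⟩
  have a2 : (dl B.G B.x).Adj s z := ⟨hsz, hsx, hzx⟩
  obtain ⟨ψ, h1, h2, h3, h4, h5, h6⟩ := E.FS (by omega) hT hzW hzy hzL hez (not_miss_of_edge' a2)
    (fun h => E.qW _ hη h.2) ∅ (by
      intro a ha
      exact absurd ha (Finset.notMem_empty _)) ⟨∅, by simp, fun a ha _ => ha⟩
    (by intro a ha; exact absurd ha (Finset.notMem_empty _))
  have lzs : Lk φ (φ.c v s) (φ.c s z) z s :=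
    (Lk.of_edge a2 (Or.inr rfl)).symm
  have e1 : ψ.c v s = φ.c s z := by
    rw [ψ.symm v s a1]
    exact h5 s v a1.symm lzs (by rw [← φ.symm v s a1])
  refine claimA E hn hQ (by omega) h1 hv hvs hsx hsz hzx hzW hzy hzL hm hk ?_ ?_
  · rw [e1]; exact hη
  · rw [e1]; exact h3

/-- B2 -/
theorem cB2 (hn : 2 ≤ E.n) (hQ : 3 ≤ E.Q.card) {r : ℕ} (hr : r + 28 ≤ 40)
    {φ : ECol (dl B.G B.x) C} (hT : E.T r φ) {v s z : V} (hv : v ∈ B.Wn) (hvs : B.G.Adj v s)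
    (hsx : s ≠ B.x) (hsz : B.G.Adj s z) (hzx : z ≠ B.x) (hzW : z ∉ B.Wn) (hzy : z ≠ B.y)
    (hzL : z ∉ B.L) (hm : ∀ ψ : ECol (dl B.G B.x) C, k ≤ nm ψ z + 1) (hk : 10 ≤ k)
    (he : B.W (φ.c v s)) (hez : Miss φ z (φ.c v s))
    {η : C} (hη : η ∈ E.Q) (hηz : Miss φ z η) : False := by
  classical
  have hvx := ne_x_of_mem hv
  have a1 : (dl B.G B.x).Adj v s := ⟨hvs, hvx, hsx⟩
  have a2 : (dl B.G B.x).Adj s z := ⟨hsz, hsx, hzx⟩
  have hηe : φ.c v s ≠ η := fun h => E.qW _ hη (h ▸ he)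
  have hne2 : φ.c v s ≠ φ.c s z := fun h => not_miss_of_edge' a2 (h ▸ hez)
  obtain ⟨ψ, h1, h2, h3, h4, h5, h6⟩ := E.FS (by omega) hT hzW hzy hzL hηz (not_miss_of_edge' a2)
    (fun h => E.qW _ hη h.1) {φ.c v s} (by
      intro a ha a' ha' _ _
      rw [Finset.mem_singleton] at ha ha'
      rw [ha, ha']) ⟨{φ.c v s}, by rw [Finset.card_singleton]; omega, fun a ha _ => ha⟩
    (by intro a ha hw; rw [Finset.mem_singleton] at ha; rw [ha] at hw; exact absurd he hw)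
  have hAe := h2 _ (Finset.mem_singleton_self _) hηe hne2
  have e1 : ψ.c v s = φ.c v s := (hAe v s a1).1 rfl
  have e2 : ψ.c s z = η := by
    rw [ψ.symm s z a2]
    exact h4 z s a2.symm (Lk.refl _ _ _ _) (by rw [← φ.symm s z a2])
  refine cB3 E hn hQ (by omega) h1 hv hvs hsx hsz hzx hzW hzy hzL hm hk ?_ ?_
  · rw [e1]; exact (hAe.miss z).1 hez
  · rw [e2]; exact hη

theorem claimB (E : B.Env) (hn : 2 ≤ E.n) (hQ : 3 ≤ E.Q.card) {r : ℕ} (hr : r + 32 ≤ 40)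
    {φ : ECol (dl B.G B.x) C} (hT : E.T r φ) {v s z : V} (hv : v ∈ B.Wn) (hvs : B.G.Adj v s)
    (hsx : s ≠ B.x) (hsz : B.G.Adj s z) (hzx : z ≠ B.x) (hzW : z ∉ B.Wn) (hzy : z ≠ B.y)
    (hzL : z ∉ B.L) (hm : ∀ ψ : ECol (dl B.G B.x) C, k ≤ nm ψ z + 1) (hk : 10 ≤ k)
    (he : B.W (φ.c v s)) (hez : Miss φ z (φ.c v s)) : False := by
  classical
  have hvx := ne_x_of_mem hv
  have a1 : (dl B.G B.x).Adj v s := ⟨hvs, hvx, hsx⟩
  have a2 : (dl B.G B.x).Adj s z := ⟨hsz, hsx, hzx⟩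
  obtain ⟨η, hη, hηe⟩ := exists_Q E hQ (φ.c v s)
  by_cases hηz : Miss φ z η
  · exact cB2 E hn hQ (by omega) hT hv hvs hsx hsz hzx hzW hzy hzL hm hk he hez hη hηz
  obtain ⟨μ, hμ, hμe⟩ := exists_miss_ne (hm φ) hk (φ.c v s)
  obtain ⟨ψ, h1, h2, h3, h4, h5, h6⟩ := E.FS (by omega) hT hzW hzy hzL hμ hηz
    (fun h => E.qW _ hη h.2) {φ.c v s} (by
      intro a ha a' ha' _ _
      rw [Finset.mem_singleton] at ha ha'
      rw [ha, ha']) ⟨{φ.c v s}, by rw [Finset.card_singleton]; omega, fun a ha _ => ha⟩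
    (by intro a ha hw; rw [Finset.mem_singleton] at ha; rw [ha] at hw; exact absurd he hw)
  have hAe := h2 _ (Finset.mem_singleton_self _) (Ne.symm hμe) (Ne.symm hηe)
  have e1 : ψ.c v s = φ.c v s := (hAe v s a1).1 rfl
  refine cB2 E hn hQ (by omega) h1 hv hvs hsx hsz hzx hzW hzy hzL hm hk ?_ ?_ hη h3
  · rw [e1]; exact he
  · rw [e1]; exact (hAe.miss z).1 hez

/-! ### Claim N -/

/-- N1 -/
theorem cN1 {φ : ECol (dl B.G B.x) C} (h : B.Good φ) {v u : V} (hv : v ∈ B.Wn)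
    (hvu : B.G.Adj v u) (hux : u ≠ B.x) (huy : u ≠ B.y)
    (he : ¬ B.W (φ.c v u)) (hγ : Miss φ u (B.m v)) : False := by
  classical
  have hvx := ne_x_of_mem hv
  have a1 : (dl B.G B.x).Adj v u := ⟨hvu, hvx, hux⟩
  have l1 : Lk φ (B.m v) (φ.c v u) v u := Lk.of_edge a1 (Or.inr rfl)
  exact three_ends φ (B.m v) (φ.c v u) v u B.y hvu.ne (fun h => B.yW (h ▸ hv)) huy l1
    (B.LL h hv he) (Or.inl ((h.1.1 v hv _).2 rfl)) (Or.inl hγ) (Or.inl ((h.1.2 _).2 (W_of_mem hv)))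

theorem cN3 (hn : 1 ≤ E.n) {r : ℕ} (hr : r + 4 ≤ 40)
    {φ : ECol (dl B.G B.x) C} (hT : E.T r φ) {v u : V} (hv : v ∈ B.Wn)
    (hvu : B.G.Adj v u) (hux : u ≠ B.x) (huW : u ∉ B.Wn) (huy : u ≠ B.y) (huL : u ∉ B.L)
    (hη : φ.c v u ∈ E.Q) {μ : C} (hμ : Miss φ u μ) (hμW : ¬ B.W μ) : False := by
  classical
  have hvx := ne_x_of_mem hv
  have a1 : (dl B.G B.x).Adj v u := ⟨hvu, hvx, hux⟩
  have hWη := E.qW _ hη
  by_cases hγ : Miss φ u (B.m v)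
  · exact cN1 (E.good _ _ hT) hv hvu hux huy hWη hγ
  have hne1 : φ.c v u ≠ μ := fun h => not_miss_of_edge' a1 (h ▸ hμ)
  have hne2 : φ.c v u ≠ B.m v := fun h => hWη (h ▸ W_of_mem hv)
  obtain ⟨ψ, h1, h2, h3, h4, h5, h6⟩ := E.FS (by omega) hT huW huy huL hμ hγ
    (fun h => hμW h.1) {φ.c v u} (by
      intro a ha a' ha' _ _
      rw [Finset.mem_singleton] at ha ha'
      rw [ha, ha']) ⟨{φ.c v u}, by rw [Finset.card_singleton]; omega, fun a ha _ => ha⟩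
    (by intro a ha _; rw [Finset.mem_singleton] at ha; rw [ha]; exact hη)
  have hAe := h2 _ (Finset.mem_singleton_self _) hne1 hne2
  have e1 : ψ.c v u = φ.c v u := (hAe v u a1).1 rfl
  refine cN1 (E.good _ _ h1) hv hvu hux huy ?_ h3
  rw [e1]; exact hWη

theorem cN4 (hn : 1 ≤ E.n) {r : ℕ} (hr : r + 8 ≤ 40) (hk : 10 ≤ k)
    {φ : ECol (dl B.G B.x) C} (hT : E.T r φ) {v u : V} (hv : v ∈ B.Wn)
    (hvu : B.G.Adj v u) (hux : u ≠ B.x) (huW : u ∉ B.Wn) (huy : u ≠ B.y) (huL : u ∉ B.L)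
    (hmu : ∀ ψ : ECol (dl B.G B.x) C, ∃ a, Miss ψ u a)
    (hη : φ.c v u ∈ E.Q) : False := by
  classical
  have hvx := ne_x_of_mem hv
  have a1 : (dl B.G B.x).Adj v u := ⟨hvu, hvx, hux⟩
  have hWη := E.qW _ hη
  obtain ⟨μ, hμ⟩ := hmu φ
  by_cases hμW : B.W μ
  · obtain ⟨η2, hη2, hη2e, -⟩ := exists_nW (B := B) hk (φ.c v u) (φ.c v u)
    by_cases hη2u : Miss φ u η2
    · exact cN3 E hn (by omega) hT hv hvu hux huW huy huL hη hη2u hη2
    have hne1 : φ.c v u ≠ μ := fun h => not_miss_of_edge' a1 (h ▸ hμ)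
    obtain ⟨ψ, h1, h2, h3, h4, h5, h6⟩ := E.FS (by omega) hT huW huy huL hμ hη2u
      (fun h => hη2 h.2) {φ.c v u} (by
        intro a ha a' ha' _ _
        rw [Finset.mem_singleton] at ha ha'
        rw [ha, ha']) ⟨{φ.c v u}, by rw [Finset.card_singleton]; omega, fun a ha _ => ha⟩
      (by intro a ha _; rw [Finset.mem_singleton] at ha; rw [ha]; exact hη)
    have hAe := h2 _ (Finset.mem_singleton_self _) hne1 (Ne.symm hη2e)
    have e1 : ψ.c v u = φ.c v u := (hAe v u a1).1 rfl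
    refine cN3 E hn (by omega) h1 hv hvu hux huW huy huL ?_ h3 hη2
    rw [e1]; exact hη
  · exact cN3 E hn (by omega) hT hv hvu hux huW huy huL hη hμ hμW

theorem cN2 (hn : 1 ≤ E.n) {r : ℕ} (hr : r + 12 ≤ 40) (hk : 10 ≤ k)
    {φ : ECol (dl B.G B.x) C} (hT : E.T r φ) {v u : V} (hv : v ∈ B.Wn)
    (hvu : B.G.Adj v u) (hux : u ≠ B.x) (huW : u ∉ B.Wn) (huy : u ≠ B.y) (huL : u ∉ B.L)
    (hmu : ∀ ψ : ECol (dl B.G B.x) C, ∃ a, Miss ψ u a)
    {η : C} (hη : η ∈ E.Q) (hηu : Miss φ u η) : False := by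
  classical
  have hvx := ne_x_of_mem hv
  have a1 : (dl B.G B.x).Adj v u := ⟨hvu, hvx, hux⟩
  obtain ⟨ψ, h1, h2, h3, h4, h5, h6⟩ := E.FS (by omega) hT huW huy huL hηu (not_miss_of_edge' a1)
    (fun h => E.qW _ hη h.1) ∅ (by
      intro a ha
      exact absurd ha (Finset.notMem_empty _)) ⟨∅, by simp, fun a ha _ => ha⟩
    (by intro a ha; exact absurd ha (Finset.notMem_empty _))
  have e1 : ψ.c v u = η := by
    rw [ψ.symm v u a1]
    exact h4 u v a1.symm (Lk.refl _ _ _ _) (by rw [← φ.symm v u a1])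
  refine cN4 E hn (by omega) hk h1 hv hvu hux huW huy huL hmu ?_
  rw [e1]; exact hη

theorem N_base (E : B.Env) (hn : 1 ≤ E.n) (hQ : ∃ η, η ∈ E.Q) (hk : 10 ≤ k)
    {φ : ECol (dl B.G B.x) C} (hT : E.T 0 φ) {v u : V} (hv : v ∈ B.Wn)
    (hvu : B.G.Adj v u) (hux : u ≠ B.x) (huW : u ∉ B.Wn) (huy : u ≠ B.y) (huL : u ∉ B.L)
    (hmu : ∀ ψ : ECol (dl B.G B.x) C, ∃ a, Miss ψ u a) : False := by
  classical
  obtain ⟨η, hη⟩ := hQ
  by_cases hηu : Miss φ u η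
  · exact cN2 E hn (by omega) hk hT hv hvu hux huW huy huL hmu hη hηu
  obtain ⟨μ, hμ⟩ := hmu φ
  obtain ⟨ψ, h1, h2, h3, h4, h5, h6⟩ := E.FS (by omega) hT huW huy huL hμ hηu
    (fun h => E.qW _ hη h.2) ∅ (by
      intro a ha
      exact absurd ha (Finset.notMem_empty _)) ⟨∅, by simp, fun a ha _ => ha⟩
    (by intro a ha; exact absurd ha (Finset.notMem_empty _))
  exact cN2 E hn (by omega) hk h1 hv hvu hux huW huy huL hmu hη h3

end Base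

end Pool.Agent.H231EC
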