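import Mathlib
import Pool.Agent.H231EC.Env0

set_option autoImplicit false

namespace Pool.Agent.H231EC

open Finset

namespace Base

variable {V C : Type} [Fintype V] [Fintype C] {k : ℕ} {B : Base V C k}



open Classical in
/-- the potential -/
noncomputable def Phi (φ : ECol (dl B.G B.x) C) : ℕ :=
  ∑ l ∈ B.L, (Finset.univ.filter (fun a => Miss φ l a ∧ ¬ B.W a)).card

theorem sigma_le {φ : ECol (dl B.G B.x) C} (hφ : B.Good φ)
    (hmax : ∀ ψ : ECol (dl B.G B.x) C, B.Good ψ → Phi ψ ≤ Phi φ) {σ η : C} (hσ : B.W σ)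
    (hη : ¬ B.W η) : B.cnt φ σ ≤ B.cnt φ η := by
  classical
  have hclaim : ∀ l ∈ B.L, Miss φ l σ → ¬ Miss φ l η →
      ∃ l' ∈ B.L, (Miss φ l' η ∧ ¬ Miss φ l' σ) ∧ Lk φ σ η l l' := by
    intro l hl hlσ hlη
    by_contra hcon
    push Not at hcon
    have hlW : l ∉ B.Wn := fun h => B.WL l h hl
    have hly : l ≠ B.y := by rintro rfl; exact B.yL hl
    have hkeep : ∀ l1 ∈ B.L, ∀ a, ¬ B.W a → Miss φ l1 a → Miss (kswap φ σ η l) l1 a := by
      intro l1 hl1 a ha hm
      by_cases hlk : Lk φ σ η l l1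
      · rw [miss_kswap_in hlk]
        have haσ : a ≠ σ := by rintro rfl; exact ha hσ
        by_cases he : a = η
        · subst he
          rw [Equiv.swap_apply_right]
          by_contra hns
          exact hcon l1 hl1 ⟨hm, hns⟩ hlk
        · rw [Equiv.swap_apply_of_ne_of_ne haσ he]
          exact hm
      · rw [miss_kswap_out hlk]
        exact hm
    have hgood : B.Good (kswap φ σ η l) := by
      refine ⟨(B.SW hφ hlW hly hlσ (fun h => hη h.2)).1, ?_⟩
      obtain ⟨g, hg⟩ := hφ.2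
      exact ⟨g, fun l1 hl1 => hkeep l1 hl1 _ (hg.2.2 l1 hl1) (hg.1 l1 hl1), hg.2.1, hg.2.2⟩
    have hPhi : Phi φ < Phi (kswap φ σ η l) := by
      unfold Phi
      refine Finset.sum_lt_sum ?_ ⟨l, hl, ?_⟩
      · intro l1 hl1
        refine Finset.card_le_card ?_
        intro a ha
        rw [Finset.mem_filter] at ha ⊢
        exact ⟨ha.1, hkeep l1 hl1 a ha.2.2 ha.2.1, ha.2.2⟩
      · refine Finset.card_lt_card ?_
        rw [Finset.ssubset_iff_of_subset]
        · refine ⟨η, ?_, ?_⟩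
          · rw [Finset.mem_filter]
            refine ⟨Finset.mem_univ _, ?_, hη⟩
            rw [miss_kswap_in (Lk.refl _ _ _ _), Equiv.swap_apply_right]
            exact hlσ
          · rw [Finset.mem_filter]
            intro h
            exact hlη h.2.1
        · intro a ha
          rw [Finset.mem_filter] at ha ⊢
          exact ⟨ha.1, hkeep l hl a ha.2.2 ha.2.1, ha.2.2⟩
    exact absurd (hmax _ hgood) (not_le.2 hPhi)
  have hcard : ((B.L.filter (fun l => Miss φ l σ)).filter (fun l => ¬ Miss φ l η)).card ≤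
      ((B.L.filter (fun l => Miss φ l η)).filter (fun l => ¬ Miss φ l σ)).card := by
    have hch : ∀ l : V, ∃ l' : V, (l ∈ B.L ∧ Miss φ l σ ∧ ¬ Miss φ l η) →
        (l' ∈ B.L ∧ (Miss φ l' η ∧ ¬ Miss φ l' σ) ∧ Lk φ σ η l l') := by
      intro l
      by_cases h : l ∈ B.L ∧ Miss φ l σ ∧ ¬ Miss φ l η
      · obtain ⟨l', h1, h2, h3⟩ := hclaim l h.1 h.2.1 h.2.2
        exact ⟨l', fun _ => ⟨h1, h2, h3⟩⟩
      · exact ⟨l, fun h' => absurd h' h⟩
    choose f hf using hch
    have hmem : ∀ l, l ∈ ((B.L.filter (fun l => Miss φ l σ)).filter (fun l => ¬ Miss φ l η)) →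
        (l ∈ B.L ∧ Miss φ l σ ∧ ¬ Miss φ l η) := by
      intro l h
      rw [Finset.mem_filter, Finset.mem_filter] at h
      exact ⟨h.1.1, h.1.2, h.2⟩
    refine Finset.card_le_card_of_injOn f ?_ ?_
    · intro l h
      have h1 := hf l (hmem l (Finset.mem_coe.1 h))
      rw [Finset.mem_coe, Finset.mem_filter, Finset.mem_filter]
      exact ⟨⟨h1.1, h1.2.1.1⟩, h1.2.1.2⟩
    · intro l1 h1 l2 h2 he
      by_contra hne
      have m1 := hmem l1 (Finset.mem_coe.1 h1)
      have m2 := hmem l2 (Finset.mem_coe.1 h2)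
      have f1 := hf l1 m1
      have f2 := hf l2 m2
      rw [← he] at f2
      have n1 : f l1 ≠ l1 := fun h => f1.2.1.2 (h.symm ▸ m1.2.1)
      have n2 : f l1 ≠ l2 := fun h => f2.2.1.2 (h.symm ▸ m2.2.1)
      exact three_ends φ σ η (f l1) l1 l2 n1 n2 hne f1.2.2.symm f2.2.2.symm
        (Or.inr f1.2.1.1) (Or.inl m1.2.1) (Or.inl m2.2.1)
  have hc1 := Finset.card_filter_add_card_filter_not (s := B.L.filter (fun l => Miss φ l σ))
    (p := fun l => Miss φ l η)
  have hc2 := Finset.card_filter_add_card_filter_not (s := B.L.filter (fun l => Miss φ l η))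
    (p := fun l => Miss φ l σ)
  have hc3 : (B.L.filter (fun l => Miss φ l σ)).filter (fun l => Miss φ l η) =
      (B.L.filter (fun l => Miss φ l η)).filter (fun l => Miss φ l σ) := by
    ext l
    simp only [Finset.mem_filter]
    tauto
  rw [hc3] at hc1
  unfold cnt
  omega

end Base

end Pool.Agent.H231EC
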