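import Mathlib
import Pool.Agent.H231EC.Sigma

set_option autoImplicit false

namespace Pool.Agent.H231EC

open Finset

namespace Base

variable {V C : Type} [Fintype V] [Fintype C] {k : ℕ} {B : Base V C k}


open Classical in
/-- the environment in the general case, from a good colouring maximising the potential. -/
theorem env2 (hk : 200 ≤ k) (φ : ECol (dl B.G B.x) C) (hφ : B.Good φ) (hL : B.L.card + 2 = k) :
    ∃ E : B.Env, E.n = 2 ∧
    (Finset.univ.filter (fun a => ¬ B.W a ∧ a ∉ E.Q)).card + 10 ≤ k ∧ ∃ φ0, E.T 0 φ0 := by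
  -- maximal potential
  obtain ⟨φ0, h0, hmax⟩ : ∃ φ0 : ECol (dl B.G B.x) C, B.Good φ0 ∧
      ∀ ψ : ECol (dl B.G B.x) C, B.Good ψ → Phi ψ ≤ Phi φ0 := by
    have hbdd : ∀ ψ : ECol (dl B.G B.x) C, Phi ψ ≤ B.L.card * Fintype.card C := by
      intro ψ
      unfold Phi
      calc _ ≤ ∑ l ∈ B.L, Fintype.card C := Finset.sum_le_sum (fun l _ => Finset.card_le_univ _)
        _ = _ := by simp
    have hP : ∃ ψ : ECol (dl B.G B.x) C, B.Good ψ ∧ Phi ψ =
        Nat.findGreatest (fun n => ∃ ψ : ECol (dl B.G B.x) C, B.Good ψ ∧ Phi ψ = n)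
          (B.L.card * Fintype.card C) :=
      Nat.findGreatest_spec (P := fun n => ∃ ψ : ECol (dl B.G B.x) C, B.Good ψ ∧ Phi ψ = n)
        (hbdd φ) ⟨φ, hφ, rfl⟩
    obtain ⟨φ0, h0, h1⟩ := hP
    refine ⟨φ0, h0, ?_⟩
    intro ψ hψ
    rw [h1]
    exact Nat.le_findGreatest (hbdd ψ) ⟨ψ, hψ, rfl⟩
  refine ⟨{
    Q := Finset.univ.filter (fun a => ¬ B.W a ∧ 51 ≤ B.cnt φ0 a)
    T := fun r ψ => B.Good ψ ∧ B.nr φ0 ψ r
    n := 2
    good := fun r ψ h => h.1
    step := fun r ψ χ s h hg hn => ⟨hg, B.nr_trans h.2 hn⟩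
    av := ?_
    qW := ?_ }, rfl, ?_, φ0, h0, fun η _ => Nat.le_add_right _ _⟩
  · -- available free colours
    intro r ψ hr hψ P hP2 hPQ
    obtain ⟨⟨hψ0, g, hg⟩, hn⟩ := hψ
    obtain ⟨b0, hb0, hfree⟩ := B.exists_free hg
    by_cases hbP : b0 ∈ P
    · have hbQ := hPQ b0 hbP hb0
      simp only [Finset.mem_filter, Finset.mem_univ, true_and] at hbQ
      have h1 := hn b0 hb0
      have h2 : 11 ≤ B.cnt ψ b0 := by omega
      obtain ⟨l, hl, hlm, hlP⟩ : ∃ l ∈ B.L, Miss ψ l b0 ∧ g l ∉ P := by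
        by_contra hcon
        push Not at hcon
        have h3 : (B.L.filter (fun l => Miss ψ l b0)).card ≤ (P.filter (fun a => ¬ B.W a)).card := by
          apply Finset.card_le_card_of_injOn g
          · intro l hl
            rw [Finset.mem_coe, Finset.mem_filter] at hl
            rw [Finset.mem_coe, Finset.mem_filter]
            exact ⟨hcon l hl.1 hl.2, hg.2.2 l hl.1⟩
          · intro l hl l' hl' he
            rw [Finset.mem_coe, Finset.mem_filter] at hl hl'
            exact hg.2.1 l hl.1 l' hl'.1 he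
        have h4 : B.cnt ψ b0 = (B.L.filter (fun l => Miss ψ l b0)).card := rfl
        omega
      refine ⟨Function.update g l b0, B.SD_update hl hb0 hfree hg.2.1 hg.2.2 hlm
        (fun l' hl' _ => hg.1 l' hl'), g l, hg.2.2 l hl, hlP, ?_⟩
      intro l' hl'
      by_cases h1 : l' = l
      · subst h1
        rw [Function.update_self]
        exact (hfree l' hl').symm
      · rw [Function.update_of_ne h1]
        intro he
        exact h1 (hg.2.1 l' hl' l hl he)
    · exact ⟨g, hg, b0, hb0, hbP, hfree⟩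
  · intro a ha
    simp only [Finset.mem_filter, Finset.mem_univ, true_and] at ha
    exact ha.1
  · -- few colours are not robust
    have hset : (Finset.univ.filter (fun a => ¬ B.W a ∧
        a ∉ Finset.univ.filter (fun a => ¬ B.W a ∧ 51 ≤ B.cnt φ0 a))) =
        Finset.univ.filter (fun a => ¬ B.W a ∧ B.cnt φ0 a ≤ 50) := by
      ext a
      simp only [Finset.mem_filter, Finset.mem_univ, true_and, not_and, not_le]
      constructor
      · rintro ⟨h1, h2⟩
        exact ⟨h1, by have := h2 h1; omega⟩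
      · rintro ⟨h1, h2⟩
        exact ⟨h1, fun _ => by omega⟩
    show (Finset.univ.filter (fun a => ¬ B.W a ∧
        a ∉ Finset.univ.filter (fun a => ¬ B.W a ∧ 51 ≤ B.cnt φ0 a))).card + 10 ≤ k
    rw [hset]
    by_contra hcon
    push Not at hcon
    have hne : (Finset.univ.filter (fun a => ¬ B.W a ∧ B.cnt φ0 a ≤ 50)).Nonempty := by
      rw [← Finset.card_pos]; omega
    obtain ⟨η0, hη0⟩ := hne
    rw [Finset.mem_filter] at hη0
    have hσ : ∀ σ, B.W σ → B.cnt φ0 σ ≤ 50 := fun σ hs =>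
      (sigma_le h0 hmax hs hη0.2.1).trans hη0.2.2
    -- double counting
    have hdc : ∑ a : C, B.cnt φ0 a = B.L.card * k := by
      have e1 : ∀ a : C, B.cnt φ0 a = ∑ l ∈ B.L, (if Miss φ0 l a then 1 else 0) := by
        intro a
        unfold cnt
        rw [Finset.card_filter]
      calc ∑ a : C, B.cnt φ0 a = ∑ a : C, ∑ l ∈ B.L, (if Miss φ0 l a then 1 else 0) :=
            Finset.sum_congr rfl (fun a _ => e1 a)
        _ = ∑ l ∈ B.L, ∑ a : C, (if Miss φ0 l a then 1 else 0) := Finset.sum_comm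
        _ = ∑ l ∈ B.L, k := by
            apply Finset.sum_congr rfl
            intro l hl
            rw [← Finset.card_filter, B.card_missL φ0 hl]
        _ = B.L.card * k := by rw [Finset.sum_const, smul_eq_mul]
    have hcL : ∀ a, B.cnt φ0 a ≤ B.L.card := fun a => Finset.card_filter_le _ _
    have hs1 : ∑ a : C, B.cnt φ0 a =
        ∑ a ∈ Finset.univ.filter (fun a => B.W a), B.cnt φ0 a +
        ∑ a ∈ Finset.univ.filter (fun a => ¬ B.W a), B.cnt φ0 a :=
      (Finset.sum_filter_add_sum_filter_not _ _ _).symm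
    have hs2 : ∑ a ∈ Finset.univ.filter (fun a => B.W a), B.cnt φ0 a ≤ k * 50 := by
      have := Finset.sum_le_card_nsmul (Finset.univ.filter (fun a => B.W a)) (fun a => B.cnt φ0 a)
        50 (fun a ha => hσ a (Finset.mem_filter.1 ha).2)
      rw [B.card_W, smul_eq_mul] at this
      exact this
    have hf1 : (Finset.univ.filter (fun a => ¬ B.W a)).filter (fun a => B.cnt φ0 a ≤ 50) =
        Finset.univ.filter (fun a => ¬ B.W a ∧ B.cnt φ0 a ≤ 50) := by
      rw [Finset.filter_filter]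
    have hcc := Finset.card_filter_add_card_filter_not
      (s := (Finset.univ.filter (fun a => ¬ B.W a))) (p := fun a => B.cnt φ0 a ≤ 50)
    rw [hf1, B.card_Wc] at hcc
    have hs3 : ∑ a ∈ Finset.univ.filter (fun a => ¬ B.W a), B.cnt φ0 a =
        ∑ a ∈ Finset.univ.filter (fun a => ¬ B.W a ∧ B.cnt φ0 a ≤ 50), B.cnt φ0 a +
        ∑ a ∈ (Finset.univ.filter (fun a => ¬ B.W a)).filter (fun a => ¬ B.cnt φ0 a ≤ 50),
          B.cnt φ0 a := by
      rw [← hf1]
      exact (Finset.sum_filter_add_sum_filter_not _ _ _).symm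
    have hs4 : ∑ a ∈ Finset.univ.filter (fun a => ¬ B.W a ∧ B.cnt φ0 a ≤ 50), B.cnt φ0 a ≤
        (Finset.univ.filter (fun a => ¬ B.W a ∧ B.cnt φ0 a ≤ 50)).card * 50 := by
      have := Finset.sum_le_card_nsmul (Finset.univ.filter (fun a => ¬ B.W a ∧ B.cnt φ0 a ≤ 50))
        (fun a => B.cnt φ0 a) 50 (fun a ha => (Finset.mem_filter.1 ha).2.2)
      rwa [smul_eq_mul] at this
    have hs5 : ∑ a ∈ (Finset.univ.filter (fun a => ¬ B.W a)).filter (fun a => ¬ B.cnt φ0 a ≤ 50),
        B.cnt φ0 a ≤ ((Finset.univ.filter (fun a => ¬ B.W a)).filter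
          (fun a => ¬ B.cnt φ0 a ≤ 50)).card * B.L.card := by
      have := Finset.sum_le_card_nsmul
        ((Finset.univ.filter (fun a => ¬ B.W a)).filter (fun a => ¬ B.cnt φ0 a ≤ 50))
        (fun a => B.cnt φ0 a) B.L.card (fun a _ => hcL a)
      rwa [smul_eq_mul] at this
    generalize (Finset.univ.filter (fun a => ¬ B.W a ∧ B.cnt φ0 a ≤ 50)).card = u at *
    generalize ((Finset.univ.filter (fun a => ¬ B.W a)).filter
          (fun a => ¬ B.cnt φ0 a ≤ 50)).card = v at *
    have hu : u ≤ k - 1 := by omega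
    have hv : v ≤ 8 := by omega
    have h6 : B.L.card * k ≤ k * 50 + ((k - 1) * 50 + 8 * B.L.card) := by
      calc B.L.card * k ≤ k * 50 + (u * 50 + v * B.L.card) := by
            rw [← hdc, hs1, hs3]; omega
        _ ≤ _ := by gcongr
    obtain ⟨j, rfl⟩ : ∃ j, k = j + 200 := ⟨k - 200, by omega⟩
    have hLc : B.L.card = j + 198 := by omega
    rw [hLc] at h6
    have h7 : j + 200 - 1 = j + 199 := by omega
    rw [h7] at h6
    nlinarith

end Base

end Pool.Agent.H231EC
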