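import Mathlib
import Pool.Agent.H231EC.Defs

set_option autoImplicit false

namespace Pool.Agent.H231EC

open Finset

theorem h170_dg {V : Type} [Fintype V] {G : SimpleGraph V} (v : V) (N : Finset V)
    (hN : ∀ w, w ∈ N ↔ G.Adj v w) : N.card = dg G v := by
  unfold dg
  congr 1
  ext w
  simp [hN]

theorem h170_missc {V C : Type} [Fintype V] [Fintype C] [DecidableEq C] {G : SimpleGraph V} {x : V}
    (φ : ECol (dl G x) C) (u : V) (hu : G.Adj x u) (F : Finset C) (hF : ∀ a, a ∈ F ↔ Miss φ u a) :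
    F.card + dg G u = Fintype.card C + 1 := by
  classical
  set N : Finset V := Finset.univ.filter (fun w => G.Adj u w) with hN
  have hux : u ≠ x := hu.ne'
  have h1 := card_miss φ u F hF (N.erase x) (by
    intro v
    rw [Finset.mem_erase, hN, Finset.mem_filter, dl_adj]
    constructor
    · rintro ⟨h1, -, h2⟩
      exact ⟨h2, hux, h1⟩
    · rintro ⟨h1, -, h2⟩
      exact ⟨h2, Finset.mem_univ _, h1⟩)
  have h2 : N.card = dg G u := h170_dg u N (by intro w; simp [hN])
  have h3 : x ∈ N := by simp [hN, hu.symm]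
  have h4 := Finset.card_erase_add_one h3
  omega

theorem h170_range {V C : Type} [Fintype V] [Fintype C] [DecidableEq C] {G : SimpleGraph V} {x y : V}
    {φ : ECol (dl G x) C} {f : V → C} (hs : SDRx G x y φ f) (hxy : G.Adj x y) (R : Finset C)
    (hR : ∀ c, c ∈ R ↔ ∃ v, G.Adj x v ∧ v ≠ y ∧ f v = c) : R.card + 1 = dg G x := by
  classical
  set N : Finset V := Finset.univ.filter (fun w => G.Adj x w) with hN
  have h2 : N.card = dg G x := h170_dg x N (by intro w; simp [hN])
  have h3 : y ∈ N := by simp [hN, hxy]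
  have h4 := Finset.card_erase_add_one h3
  have h5 : R = (N.erase y).image f := by
    ext c
    rw [hR, Finset.mem_image]
    constructor
    · rintro ⟨v, h1, h2, h3⟩
      exact ⟨v, Finset.mem_erase.2 ⟨h2, by simp [hN, h1]⟩, h3⟩
    · rintro ⟨v, h1, h3⟩
      rw [Finset.mem_erase, hN, Finset.mem_filter] at h1
      exact ⟨v, h1.2.2, h1.1, h3⟩
  have h6 : R.card = (N.erase y).card := by
    rw [h5]
    apply Finset.card_image_of_injOn
    intro v hv w hw hvw
    have hv' := Finset.mem_coe.1 hv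
    have hw' := Finset.mem_coe.1 hw
    rw [Finset.mem_erase, hN, Finset.mem_filter] at hv' hw'
    exact hs.2 v w hv'.2.2 hv'.1 hw'.2.2 hw'.1 hvw
  omega

theorem h170_fi {V C : Type} [DecidableEq V] {G : SimpleGraph V} {x y : V} (nc : ECol G C → False)
    (hxy : G.Adj x y) {φ : ECol (dl G x) C} {f : V → C} (hs : SDRx G x y φ f) {b : C}
    (hb : Miss φ y b) : ∃ u, G.Adj x u ∧ u ≠ y ∧ f u = b := by
  by_contra hcon
  push Not at hcon
  refine nc (extend φ (Function.update f y b) ?_ ?_).some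
  · intro u hu
    by_cases huy : u = y
    · subst huy
      rw [Function.update_self]
      exact hb
    · rw [Function.update_of_ne huy]
      exact hs.1 u hu huy
  · intro u v hu hv heq
    by_cases huy : u = y <;> by_cases hvy : v = y
    · rw [huy, hvy]
    · rw [huy, Function.update_self, Function.update_of_ne hvy] at heq
      exact absurd heq.symm (hcon v hv hvy)
    · rw [hvy, Function.update_self, Function.update_of_ne huy] at heq
      exact absurd heq (hcon u hu huy)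
    · rw [Function.update_of_ne huy, Function.update_of_ne hvy] at heq
      exact hs.2 u v hu huy hv hvy heq

theorem h170_fii {V C : Type} [DecidableEq V] [DecidableEq C] {G : SimpleGraph V} {x y : V}
    (nc : ECol G C → False)
    (hxy : G.Adj x y) {φ : ECol (dl G x) C} {f : V → C} (hs : SDRx G x y φ f) {a b : C} {u : V}
    (ha : ∀ v, G.Adj x v → v ≠ y → f v ≠ a) (hb : Miss φ y b) (hu : G.Adj x u) (huy : u ≠ y)
    (hfu : f u = b) : Lk φ a b y u := by
  by_contra hL
  have hs' : SDRx G x y (kswap φ a b y) f := by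
    refine ⟨fun v hv hvy => ?_, hs.2⟩
    by_cases hvu : f v = b
    · have : v = u := hs.2 v u hv hvy hu huy (hvu.trans hfu.symm)
      subst this
      rw [miss_kswap_out hL]
      exact hs.1 v hv hvy
    · rw [miss_kswap_ne (ha v hv hvy) hvu]
      exact hs.1 v hv hvy
  have hy : Miss (kswap φ a b y) y a := by
    rw [miss_kswap_in (Lk.refl φ a b y), Equiv.swap_apply_left]
    exact hb
  obtain ⟨v, h1, h2, h3⟩ := h170_fi nc hxy hs' hy
  exact ha v h1 h2 h3

theorem h170_shift {V C : Type} [DecidableEq V] {G : SimpleGraph V} {x y : V}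
    {φ : ECol (dl G x) C} {f : V → C} (hs : SDRx G x y φ f) {b : C} {u : V}
    (hb : Miss φ y b) (hu : G.Adj x u) (huy : u ≠ y) (hfu : f u = b) :
    SDRx G x u φ (Function.update f y b) ∧
      (∀ v, G.Adj x v → v ≠ u → ∃ v', G.Adj x v' ∧ v' ≠ y ∧ f v' = Function.update f y b v) := by
  refine ⟨⟨?_, ?_⟩, ?_⟩
  · intro v hv hvu
    by_cases hvy : v = y
    · rw [hvy, Function.update_self]; exact hb
    · rw [Function.update_of_ne hvy]; exact hs.1 v hv hvy
  · intro v w hv hvu hw hwu heq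
    by_cases hvy : v = y <;> by_cases hwy : w = y
    · rw [hvy, hwy]
    · rw [hvy, Function.update_self, Function.update_of_ne hwy] at heq
      exact absurd (hs.2 w u hw hwy hu huy (heq.symm.trans hfu.symm)) hwu
    · rw [hwy, Function.update_self, Function.update_of_ne hvy] at heq
      exact absurd (hs.2 v u hv hvy hu huy (heq.trans hfu.symm)) hvu
    · rw [Function.update_of_ne hvy, Function.update_of_ne hwy] at heq
      exact hs.2 v w hv hvy hw hwy heq
  · intro v hv hvu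
    by_cases hvy : v = y
    · exact ⟨u, hu, huy, by rw [hvy, Function.update_self]; exact hfu⟩
    · exact ⟨v, hv, hvy, by rw [Function.update_of_ne hvy]⟩

theorem h170_iv {V C : Type} [Fintype V] [DecidableEq V] [DecidableEq C] {G : SimpleGraph V} {x y : V}
    (nc : ECol G C → False)
    (hxy : G.Adj x y) {φ : ECol (dl G x) C} {f : V → C} (hs : SDRx G x y φ f) {a b b' : C} {u : V}
    (ha : ∀ v, G.Adj x v → v ≠ y → f v ≠ a) (hb : Miss φ y b) (hu : G.Adj x u) (huy : u ≠ y)
    (hfu : f u = b) (hbb : b' ≠ b) (h1 : Miss φ u b') (h2 : Miss φ y b') : False := by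
  obtain ⟨u', hu', hu'y, hfu'⟩ := h170_fi nc hxy hs h2
  have huu' : u' ≠ u := by
    rintro rfl
    exact hbb (hfu'.symm.trans hfu)
  have l1 := h170_fii nc hxy hs ha h2 hu' hu'y hfu'
  obtain ⟨hs', hr'⟩ := h170_shift hs hb hu huy hfu
  have ha' : ∀ v, G.Adj x v → v ≠ u → Function.update f y b v ≠ a := by
    intro v hv hvu heq
    obtain ⟨v', g1, g2, g3⟩ := hr' v hv hvu
    exact ha v' g1 g2 (g3.trans heq)
  have l2 := h170_fii nc hu hs' ha' h1 hu' huu' (by rw [Function.update_of_ne hu'y]; exact hfu')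
  have m' : Miss φ u' b' := by
    have := hs.1 u' hu' hu'y
    rwa [hfu'] at this
  exact three_ends φ a b' u' y u hu'y huu' huy.symm l1.symm l2.symm (Or.inr m') (Or.inr h2) (Or.inr h1)

theorem h170_bigN {V : Type} [Fintype V] {G : SimpleGraph V} {k : ℕ} {x w : V} :
    w ∈ bigN G k x ↔ G.Adj x w ∧ ¬ dg G w ≤ k := by
  simp [bigN]

theorem h170_core {V C : Type} [Fintype V] [Fintype C] [DecidableEq V] [DecidableEq C]
    {G : SimpleGraph V} {k : ℕ} (hk : 2 ≤ k) (hC : 2 * k - 1 ≤ Fintype.card C)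
    (nc : ECol G C → False)
    (deg : ∀ v, dg G v ≤ Fintype.card C)
    {x y : V} (hx : XX G k x) (hxy : G.Adj x y) (hy : dg G y ≤ k)
    (φ : ECol (dl G x) C) (f : V → C) (hs : SDRx G x y φ f) :
    Fintype.card C = 2 * k - 1 ∧ dg G y = k ∧ (bigN G k x).card = k ∧
      (∀ b, Miss φ y b ↔ ∃ w ∈ bigN G k x, f w = b) ∧
      (∀ w ∈ bigN G k x, dg G w = Fintype.card C) := by
  classical
  obtain ⟨My, hMy⟩ : ∃ My : Finset C, ∀ a, a ∈ My ↔ Miss φ y a :=
    ⟨Finset.univ.filter (fun a => Miss φ y a), by simp⟩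
  have cMy := h170_missc φ y hxy My hMy
  obtain ⟨R, hR⟩ : ∃ R : Finset C, ∀ c, c ∈ R ↔ ∃ v, G.Adj x v ∧ v ≠ y ∧ f v = c :=
    ⟨Finset.univ.filter (fun c => ∃ v, G.Adj x v ∧ v ≠ y ∧ f v = c), by simp⟩
  have cR := h170_range hs hxy R hR
  have hxD := deg x
  obtain ⟨a, haR⟩ : ∃ a, a ∉ R := by
    by_contra hcon
    push Not at hcon
    have : R = Finset.univ := Finset.eq_univ_iff_forall.2 hcon
    rw [this, Finset.card_univ] at cR
    omega
  have ha : ∀ v, G.Adj x v → v ≠ y → f v ≠ a := by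
    intro v h1 h2 h3
    exact haR ((hR a).2 ⟨v, h1, h2, h3⟩)
  have hMyR : My ⊆ R := by
    intro b hb
    rw [hR]
    exact h170_fi nc hxy hs ((hMy b).1 hb)
  have cd := Finset.card_sdiff_add_card_eq_card hMyR
  -- colours missing at `u` are in the range
  have hmu : ∀ b u, Miss φ y b → G.Adj x u → u ≠ y → f u = b → ∀ c, Miss φ u c → c ∈ R := by
    intro b u hb hu huy hfu c hc
    obtain ⟨hs', hr'⟩ := h170_shift hs hb hu huy hfu
    obtain ⟨v, g1, g2, g3⟩ := h170_fi nc hu hs' hc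
    obtain ⟨v', g4, g5, g6⟩ := hr' v g1 g2
    rw [hR]
    exact ⟨v', g4, g5, g6.trans g3⟩
  -- (v)
  have h5 : ∀ b u, Miss φ y b → G.Adj x u → u ≠ y → f u = b → ¬ dg G u ≤ k := by
    intro b u hb hu huy hfu hdk
    obtain ⟨Mu, hMu⟩ : ∃ Mu : Finset C, ∀ a, a ∈ Mu ↔ Miss φ u a :=
      ⟨Finset.univ.filter (fun a => Miss φ u a), by simp⟩
    have cMu := h170_missc φ u hu Mu hMu
    have hbMu : b ∈ Mu := by
      rw [hMu, ← hfu]; exact hs.1 u hu huy
    have hsub : Mu.erase b ⊆ R \ My := by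
      intro c hc
      rw [Finset.mem_erase, hMu] at hc
      rw [Finset.mem_sdiff, hMy]
      refine ⟨hmu b u hb hu huy hfu c hc.2, fun hyc => ?_⟩
      exact h170_iv nc hxy hs ha hb hu huy hfu hc.1 hc.2 hyc
    have c1 := Finset.card_le_card hsub
    have c2 := Finset.card_erase_add_one hbMu
    omega
  have h6 : My ⊆ (bigN G k x).image f := by
    intro b hb
    rw [hMy] at hb
    obtain ⟨u, hu, huy, hfu⟩ := h170_fi nc hxy hs hb
    exact Finset.mem_image.2 ⟨u, h170_bigN.2 ⟨hu, h5 b u hb hu huy hfu⟩, hfu⟩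
  have c6 : My.card ≤ (bigN G k x).card := (Finset.card_le_card h6).trans Finset.card_image_le
  have hxk := hx.2
  have hD : Fintype.card C = 2 * k - 1 := by omega
  have hyk : dg G y = k := by omega
  have hbk : (bigN G k x).card = k := by omega
  have h7 : My = (bigN G k x).image f :=
    Finset.eq_of_subset_of_card_le h6 (Finset.card_image_le.trans (by omega))
  have hmiss : ∀ b, Miss φ y b ↔ ∃ w ∈ bigN G k x, f w = b := by
    intro b
    rw [← hMy, h7, Finset.mem_image]
  refine ⟨hD, hyk, hbk, hmiss, ?_⟩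
  intro w hw
  obtain ⟨hxw, hwk⟩ := h170_bigN.1 hw
  have hwy : w ≠ y := by
    rintro rfl; exact hwk hy
  have hbw : Miss φ y (f w) := (hmiss _).2 ⟨w, hw, rfl⟩
  by_contra hne
  have hwD := deg w
  obtain ⟨Mw, hMw⟩ : ∃ Mw : Finset C, ∀ a, a ∈ Mw ↔ Miss φ w a :=
    ⟨Finset.univ.filter (fun a => Miss φ w a), by simp⟩
  have cMw := h170_missc φ w hxw Mw hMw
  obtain ⟨b', hb'M, hb'ne⟩ : ∃ b' ∈ Mw, b' ≠ f w := Finset.exists_mem_ne (by omega) (f w)
  rw [hMw] at hb'M
  have hb'R := hmu (f w) w hbw hxw hwy rfl b' hb'M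
  have hb'y : ¬ Miss φ y b' := fun h' => h170_iv nc hxy hs ha hbw hxw hwy rfl hb'ne hb'M h'
  obtain ⟨u', hu', hu'y, hfu'⟩ := (hR b').1 hb'R
  have hu'w : u' ≠ w := by
    rintro rfl; exact hb'ne hfu'.symm
  have hu'k : dg G u' ≤ k := by
    by_contra hcon
    exact hb'y ((hmiss b').2 ⟨u', h170_bigN.2 ⟨hu', hcon⟩, hfu'⟩)
  -- shift twice
  obtain ⟨hs1, hr1⟩ := h170_shift hs hbw hxw hwy rfl
  have e1 : Function.update f y (f w) u' = b' := by rw [Function.update_of_ne hu'y]; exact hfu'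
  obtain ⟨hs2, hr2⟩ := h170_shift hs1 hb'M hu' hu'w e1
  set f2 := Function.update (Function.update f y (f w)) w b' with hf2
  have hr : ∀ v, G.Adj x v → v ≠ u' → ∃ v', G.Adj x v' ∧ v' ≠ y ∧ f v' = f2 v := by
    intro v hv hvu
    obtain ⟨v1, g1, g2, g3⟩ := hr2 v hv hvu
    obtain ⟨v2, g4, g5, g6⟩ := hr1 v1 g1 g2
    exact ⟨v2, g4, g5, g6.trans g3⟩
  have ha2 : ∀ v, G.Adj x v → v ≠ u' → f2 v ≠ a := by
    intro v hv hvu heq
    obtain ⟨v', g1, g2, g3⟩ := hr v hv hvu
    exact ha v' g1 g2 (g3.trans heq)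
  obtain ⟨Mu, hMu⟩ : ∃ Mu : Finset C, ∀ a, a ∈ Mu ↔ Miss φ u' a :=
    ⟨Finset.univ.filter (fun a => Miss φ u' a), by simp⟩
  have cMu := h170_missc φ u' hu' Mu hMu
  have hsub : Mu ⊆ R \ My := by
    intro c hc
    rw [hMu] at hc
    rw [Finset.mem_sdiff]
    refine ⟨?_, ?_⟩
    · obtain ⟨v, g1, g2, g3⟩ := h170_fi nc hu' hs2 hc
      obtain ⟨v', g4, g5, g6⟩ := hr v g1 g2
      rw [hR]
      exact ⟨v', g4, g5, g6.trans g3⟩
    · intro hcy
      rw [hMy] at hcy
      by_cases hcb : c = f w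
      · subst hcb
        have l1 : Lk φ a (f w) y w := h170_fii nc hxy hs ha hcy hxw hwy rfl
        have l2 : Lk φ a (f w) u' y := h170_fii nc hu' hs2 ha2 hc hxy (Ne.symm hu'y) (by
          rw [hf2, Function.update_of_ne hwy.symm, Function.update_self])
        exact three_ends φ a (f w) y w u' hwy.symm (Ne.symm hu'y) hu'w.symm l1 l2.symm (Or.inr hcy)
          (Or.inr (hs.1 w hxw hwy)) (Or.inr hc)
      · obtain ⟨uc, huc, hucy, hfuc⟩ := h170_fi nc hxy hs hcy
        have hucw : uc ≠ w := by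
          rintro rfl; exact hcb hfuc.symm
        have hucu' : uc ≠ u' := by
          rintro rfl
          rw [hfu'] at hfuc
          rw [hfuc] at hb'y
          exact hb'y hcy
        have l1 : Lk φ a c y uc := h170_fii nc hxy hs ha hcy huc hucy hfuc
        have l2 : Lk φ a c u' uc := h170_fii nc hu' hs2 ha2 hc huc hucu' (by
          rw [hf2, Function.update_of_ne hucw, Function.update_of_ne hucy]
          exact hfuc)
        have mc : Miss φ uc c := by
          have := hs.1 uc huc hucy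
          rwa [hfuc] at this
        exact three_ends φ a c uc y u' hucy hucu' (Ne.symm hu'y) l1.symm l2.symm (Or.inr mc)
          (Or.inr hcy) (Or.inr hc)
  have c1 := Finset.card_le_card hsub
  omega

/-- structure around a vertex of `XX` -/
theorem fan_struct {V C : Type} [Fintype V] [Fintype C] [DecidableEq V] [DecidableEq C]
    {G : SimpleGraph V} {k : ℕ} (hk : 2 ≤ k) (hC : 2 * k - 1 ≤ Fintype.card C)
    (nc : ECol G C → False) (cr : ∀ x y, G.Adj x y → Nonempty (ECol (de G x y) C))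
    (deg : ∀ v, dg G v ≤ Fintype.card C)
    {x y : V} (hx : XX G k x) (hxy : G.Adj x y) (hy : dg G y ≤ k) :
    Fintype.card C = 2 * k - 1 ∧ dg G y = k ∧ (bigN G k x).card = k ∧
      (∀ w ∈ bigN G k x, dg G w = Fintype.card C) ∧
      (∀ φ : ECol (dl G x) C, ∀ f : V → C, SDRx G x y φ f →
        ∀ b, Miss φ y b ↔ ∃ w ∈ bigN G k x, f w = b) := by
  obtain ⟨ψ⟩ := cr x y hxy
  obtain ⟨φ, f, h1, h2⟩ := restrict ψ
  obtain ⟨c1, c2, c3, -, c5⟩ := h170_core hk hC nc deg hx hxy hy φ f ⟨h1, h2⟩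
  refine ⟨c1, c2, c3, c5, ?_⟩
  intro φ' f' hs'
  exact (h170_core hk hC nc deg hx hxy hy φ' f' hs').2.2.2.1

end Pool.Agent.H231EC
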