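import Mathlib
import Pool.Agent.H231EC.Env0

set_option autoImplicit false

namespace Pool.Agent.H231EC

open Finset

namespace Base

variable {V C : Type} [Fintype V] [Fintype C] {k : ℕ} {B : Base V C k}



theorem sh_one_in_W {z : V} (ψ : ECol (dl B.G B.x) C) (hm : k ≤ nm ψ z + 1) (hk : 3 ≤ k)
    {b : C} (hb : ¬ B.W b) (hzb : ¬ Miss ψ z b) : ∃ s, Miss ψ z s ∧ B.W s := by
  classical
  by_contra hcon
  push Not at hcon
  have h1 : Finset.univ.filter (fun a => Miss ψ z a) ⊆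
      ((Finset.univ.filter (fun a => ¬ B.W a)).erase b) := by
    intro a ha
    simp only [Finset.mem_filter, Finset.mem_univ, true_and] at ha
    simp only [Finset.mem_erase, Finset.mem_filter, Finset.mem_univ, true_and]
    refine ⟨?_, hcon a ha⟩
    rintro rfl
    exact hzb ha
  have h2 := Finset.card_le_card h1
  rw [Finset.card_erase_of_mem (by simpa using hb), B.card_Wc] at h2
  unfold nm at hm
  omega

theorem sh_yx : B.y ≠ B.x := by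
  intro h
  have h1 : B.G.Adj B.x B.y := (B.adjx B.y).2 (Or.inr (Or.inl rfl))
  rw [h] at h1
  exact B.G.loopless.irrefl _ h1

theorem sh_nW {ψ : ECol (dl B.G B.x) C} (h : B.Good ψ) {s : V} (hys : B.G.Adj B.y s)
    (hsx : s ≠ B.x) : ¬ B.W (ψ.c B.y s) := by
  intro hW
  have h1 : (dl B.G B.x).Adj B.y s := ⟨hys, sh_yx, hsx⟩
  exact not_miss_of_edge h1 ((h.1.2 _).2 hW)

theorem sh1 {ψ : ECol (dl B.G B.x) C} (h : B.Good ψ) {s z : V} (hys : B.G.Adj B.y s)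
    (hsx : s ≠ B.x) (hsz : B.G.Adj s z) (hzx : z ≠ B.x) (hzy : z ≠ B.y) (hzW : z ∉ B.Wn)
    (hW : B.W (ψ.c s z)) (hmz : Miss ψ z (ψ.c B.y s)) : False := by
  classical
  have hb := sh_nW h hys hsx
  obtain ⟨w, hw, hmw⟩ := hW
  have l1 := B.LL h hw hb
  have l2 : Lk ψ (B.m w) (ψ.c B.y s) B.y s := Lk.of_edge ⟨hys, sh_yx, hsx⟩ (Or.inr rfl)
  have l3 : Lk ψ (B.m w) (ψ.c B.y s) s z := Lk.of_edge ⟨hsz, hsx, hzx⟩ (Or.inl hmw.symm)
  exact three_ends ψ (B.m w) (ψ.c B.y s) w B.y z (by rintro rfl; exact B.yW hw)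
    (by rintro rfl; exact hzW hw) (Ne.symm hzy) l1 (l1.trans (l2.trans l3))
    (Or.inl ((h.1.1 w hw _).2 rfl)) (Or.inl ((h.1.2 _).2 ⟨w, hw, rfl⟩)) (Or.inr hmz)

theorem sh2 {ψ : ECol (dl B.G B.x) C} (h : B.Good ψ) {s z : V} (hys : B.G.Adj B.y s)
    (hsx : s ≠ B.x) (hsz : B.G.Adj s z) (hzx : z ≠ B.x) (hzy : z ≠ B.y) (hzW : z ∉ B.Wn)
    (hm : ∀ ψ : ECol (dl B.G B.x) C, k ≤ nm ψ z + 1) (hk : 3 ≤ k)
    (hW : B.W (ψ.c s z)) : False := by
  classical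
  by_cases hmz : Miss ψ z (ψ.c B.y s)
  · exact sh1 h hys hsx hsz hzx hzy hzW hW hmz
  have hb := sh_nW h hys hsx
  obtain ⟨s0, hs0, hs0W⟩ := sh_one_in_W ψ (hm ψ) hk hb hmz
  have hAv : B.Av ψ {ψ.c s z} := by
    obtain ⟨g, hg⟩ := h.2
    obtain ⟨b', hb', hfree⟩ := B.exists_free hg
    refine ⟨g, hg, b', hb', ?_, hfree⟩
    intro hmem
    rw [Finset.mem_singleton] at hmem
    exact hb' (hmem ▸ hW)
  obtain ⟨χ, hG, -, hAg, hM, -, -, hout, -, hlk⟩ := B.FS h hzW hzy hs0 hmz (fun hh => hb hh.2)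
    (fun _ => hs0W) {ψ.c s z} (by
      intro a ha a' ha' _ _
      rw [Finset.mem_singleton] at ha ha'
      rw [ha, ha']) hAv
  have hne1 : ψ.c s z ≠ s0 := by
    intro he
    have h1 : (dl B.G B.x).Adj s z := ⟨hsz, hsx, hzx⟩
    exact not_miss_of_edge' h1 (he ▸ hs0)
  have hne2 : ψ.c s z ≠ ψ.c B.y s := by
    intro he
    exact hb (he ▸ hW)
  have hA := hAg _ (Finset.mem_singleton_self _) hne1 hne2
  have hc : χ.c s z = ψ.c s z := (hA s z ⟨hsz, hsx, hzx⟩).1 rfl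
  have hys' : χ.c B.y s = ψ.c B.y s :=
    hout B.y s ⟨hys, sh_yx, hsx⟩ (hlk (Or.inl hs0W)) rfl
  exact sh1 hG hys hsx hsz hzx hzy hzW (by rw [hc]; exact hW) (by rw [hys']; exact hM)

/-- Claim Sh at the base. -/
theorem Sh_base {φ : ECol (dl B.G B.x) C} (h : B.Good φ) {s z : V} (hys : B.G.Adj B.y s)
    (hsx : s ≠ B.x) (hsz : B.G.Adj s z) (hzx : z ≠ B.x) (hzy : z ≠ B.y) (hzW : z ∉ B.Wn)
    (hm : ∀ ψ : ECol (dl B.G B.x) C, k ≤ nm ψ z + 1) (hk : 3 ≤ k) : False := by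
  classical
  by_cases hW : B.W (φ.c s z)
  · exact sh2 h hys hsx hsz hzx hzy hzW hm hk hW
  have h1 : (dl B.G B.x).Adj s z := ⟨hsz, hsx, hzx⟩
  have hmz : ¬ Miss φ z (φ.c s z) := not_miss_of_edge' h1
  obtain ⟨s0, hs0, hs0W⟩ := sh_one_in_W φ (hm φ) hk hW hmz
  have hAv : B.Av φ ∅ := by
    obtain ⟨g, hg⟩ := h.2
    obtain ⟨b', hb', hfree⟩ := B.exists_free hg
    exact ⟨g, hg, b', hb', Finset.notMem_empty _, hfree⟩
  obtain ⟨χ, hG, -, -, -, hin, -, -, -, -⟩ := B.FS h hzW hzy hs0 hmz (fun hh => hW hh.2)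
    (fun _ => hs0W) ∅ (by
      intro a ha
      exact absurd ha (Finset.notMem_empty _)) hAv
  have hc : χ.c z s = s0 := hin z s h1.symm (Lk.refl _ _ _ _) (φ.symm s z h1).symm
  have hc2 : χ.c s z = s0 := by rw [χ.symm s z h1]; exact hc
  exact sh2 hG hys hsx hsz hzx hzy hzW hm hk (by rw [hc2]; exact hs0W)

end Base

end Pool.Agent.H231EC
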