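import Mathlib
import Pool.Agent.H231EC.ShBase
import Pool.Agent.H231EC.Env2
import Pool.Agent.H231EC.ExBase
import Pool.Agent.H231EC.ClaimsAB

set_option autoImplicit false

namespace Pool.Agent.H231EC

open Finset

namespace Base

variable {V C : Type} [Fintype V] [Fintype C] {k : ℕ} {B : Base V C k}

/-- the environment when at least two free colours are available. -/
theorem env1 (hL : B.L.card + 3 ≤ k) : ∃ E : B.Env, E.n = 1 ∧ (∀ a, ¬ B.W a → a ∈ E.Q) ∧
    ∀ φ, B.Good φ → E.T 0 φ := by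
  classical
  refine ⟨⟨Finset.univ.filter (fun a => ¬ B.W a), fun _ φ => B.Good φ, 1, fun _ _ h => h,
    fun _ _ _ _ _ h _ => h, ?_, ?_⟩, rfl, ?_, fun φ h => h⟩
  · intro r φ _ hφ P hP _
    obtain ⟨-, g, hg⟩ := hφ
    refine ⟨g, hg, ?_⟩
    by_contra hcon
    push Not at hcon
    have h1 : Finset.univ.filter (fun a => ¬ B.W a) ⊆ B.L.image g ∪ P.filter (fun a => ¬ B.W a) := by
      intro a ha
      simp only [Finset.mem_filter, Finset.mem_univ, true_and] at ha
      rw [Finset.mem_union]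
      by_cases haP : a ∈ P
      · right; exact Finset.mem_filter.2 ⟨haP, ha⟩
      · left
        obtain ⟨l, hl, h⟩ := hcon a ha haP
        exact Finset.mem_image.2 ⟨l, hl, h⟩
    have h2 := (Finset.card_le_card h1).trans (Finset.card_union_le _ _)
    rw [B.card_Wc] at h2
    have h3 : (B.L.image g).card ≤ B.L.card := Finset.card_image_le
    omega
  · intro a ha
    simpa using ha
  · intro a ha
    simpa using ha

open Classical in
theorem nm_add (ψ : ECol (dl B.G B.x) C) {z : V} (hz : z ≠ B.x) :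
    Fintype.card C ≤ nm ψ z + dg B.G z := by
  have h := card_miss ψ z (Finset.univ.filter (fun a => Miss ψ z a)) (by intro a; simp)
    ((Finset.univ.filter (fun w => B.G.Adj z w)).erase B.x) (by
      intro v
      simp only [Finset.mem_erase, Finset.mem_filter, Finset.mem_univ, true_and, dl_adj]
      constructor
      · intro h; exact ⟨h.2, hz, h.1⟩
      · intro h; exact ⟨h.2.2, h.1⟩)
  have h2 : ((Finset.univ.filter (fun w => B.G.Adj z w)).erase B.x).card ≤ dg B.G z := by
    unfold dg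
    exact Finset.card_le_card (Finset.erase_subset _ _)
  have h3 : nm ψ z = (Finset.univ.filter (fun a => Miss ψ z a)).card := rfl
  omega

open Classical in
theorem env_all (hk : 200 ≤ k) (φ : ECol (dl B.G B.x) C) (hφ : B.Good φ) :
    ∃ E : B.Env, 1 ≤ E.n ∧ (∃ η, η ∈ E.Q) ∧ ∃ φ0, E.T 0 φ0 := by
  by_cases hL : B.L.card + 3 ≤ k
  · obtain ⟨E, h1, h2, h3⟩ := env1 hL
    obtain ⟨c, hc, -, -⟩ := exists_nW (B := B) (by omega) (φ.c B.x B.x) (φ.c B.x B.x)
    exact ⟨E, by omega, ⟨c, h2 c hc⟩, φ, h3 φ hφ⟩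
  · have hcL := B.cL
    obtain ⟨E, h1, h2, h3⟩ := env2 hk φ hφ (by omega)
    refine ⟨E, by omega, ?_, h3⟩
    by_contra hcon
    push Not at hcon
    have h4 : (Finset.univ.filter (fun a => ¬ B.W a ∧ a ∉ E.Q)) =
        Finset.univ.filter (fun a => ¬ B.W a) := by
      ext a
      simp only [Finset.mem_filter, Finset.mem_univ, true_and]
      exact ⟨fun h => h.1, fun h => ⟨h, hcon a⟩⟩
    rw [h4, B.card_Wc] at h2
    omega

end Base

variable {V C : Type} [Fintype V] [Fintype C] {G : SimpleGraph V} {k : ℕ}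

open Classical in
theorem exists_small {x : V} (hx : XX G k x) : ∃ y, G.Adj x y ∧ dg G y ≤ k := by
  by_contra hcon
  push Not at hcon
  have h1 : bigN G k x = Finset.univ.filter (fun w => G.Adj x w) := by
    ext w
    simp only [bigN, Finset.mem_filter, Finset.mem_univ, true_and]
    constructor
    · exact fun h => h.1
    · exact fun h => ⟨h, by have := hcon w h; omega⟩
  have h2 := hx.2
  have h3 := hx.1
  rw [h1] at h2
  exact h3 h2

theorem Sh (h : Crit G C k)
    {x y s z : V} (hx : XX G k x) (hxy : G.Adj x y) (hy : dg G y ≤ k) (hys : G.Adj y s)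
    (hsx : s ≠ x) (hsz : G.Adj s z) (hz : dg G z ≤ k) : z = y := by
  classical
  by_contra hne
  have hzx : z ≠ x := by rintro rfl; exact hx.1 hz
  obtain ⟨B, hG, hBx, hBy, hW, hL, hLc, φ, hφ⟩ := exists_base h hx hxy hy
  subst hG hBx hBy
  have hk := h.hk
  refine Base.Sh_base hφ hys hsx hsz hzx hne ?_ ?_ (by omega)
  · rw [hW]
    simp only [bigN, Finset.mem_filter, not_and, not_not]
    intro _ _
    exact hz
  · intro ψ
    have h1 := Base.nm_add ψ hzx
    have h2 := B.hC
    omega

theorem Nn (h : Crit G C k)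
    {x v u : V} (hx : XX G k x) (hxv : G.Adj x v) (hv : ¬ dg G v ≤ k) (hvu : G.Adj v u)
    (hux : u ≠ x) (hu : ¬ (G.Adj x u ∧ dg G u ≤ k)) : dg G u = Fintype.card C := by
  classical
  by_contra hne
  have hlt : dg G u < Fintype.card C := lt_of_le_of_ne (h.deg u) hne
  obtain ⟨y, hxy, hy⟩ := exists_small hx
  have hk := h.hk
  have hfan := fan_struct (by omega) h.hC h.nc h.cr h.deg hx hxy hy
  obtain ⟨B, hG, hBx, hBy, hW, hL, hLc, φ, hφ⟩ := exists_base h hx hxy hy
  subst hG hBx hBy
  obtain ⟨E, hn, hQ, φ0, hT⟩ := Base.env_all hk φ hφ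
  have hvW : v ∈ B.Wn := by
    rw [hW]
    simp only [bigN, Finset.mem_filter, Finset.mem_univ, true_and]
    exact ⟨hxv, hv⟩
  refine Base.N_base E hn hQ (by omega) hT hvW hvu hux ?_ ?_ ?_ ?_
  · intro huW
    rw [hW] at huW
    exact hne (hfan.2.2.2.1 u huW)
  · rintro rfl
    exact hu ⟨hxy, hy⟩
  · intro huL
    have := (hL u).1 huL
    exact hu ⟨this.1, this.2.1⟩
  · intro ψ
    have h1 := Base.nm_add ψ hux
    have h2 : 0 < Base.nm ψ u := by omega
    unfold Base.nm at h2
    obtain ⟨a, ha⟩ := Finset.card_pos.1 h2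
    exact ⟨a, by simpa using ha⟩

end Pool.Agent.H231EC
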