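import Mathlib
import Pool.Agent.H231EC.Main2

set_option autoImplicit false

namespace Pool.Agent.H231EC

open Finset



section glob

variable {V C : Type} [Fintype V] [Fintype C] {G : SimpleGraph V} {k : ℕ}

open Classical in
/-- small neighbours -/
noncomputable def smN (G : SimpleGraph V) (k : ℕ) (x : V) : Finset V :=
  Finset.univ.filter (fun w => G.Adj x w ∧ dg G w ≤ k)

open Classical in
theorem dg_split (G : SimpleGraph V) (k : ℕ) (x : V) :
    (bigN G k x).card + (smN G k x).card = dg G x := by
  unfold bigN smN dg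
  rw [add_comm, ← Finset.filter_filter, ← Finset.filter_filter]
  exact Finset.card_filter_add_card_filter_not (s := Finset.univ.filter (fun w => G.Adj x w))
    (fun w => dg G w ≤ k)

theorem mem_smN {x w : V} : w ∈ smN G k x ↔ G.Adj x w ∧ dg G w ≤ k := by
  unfold smN; simp

theorem mem_bigN {x w : V} : w ∈ bigN G k x ↔ G.Adj x w ∧ ¬ dg G w ≤ k := by
  unfold bigN; simp

theorem glob_F1 (h : Crit G C k) {x : V} (hx : XX G k x) :
    Fintype.card C = 2 * k - 1 ∧ (bigN G k x).card = k ∧
      (∀ w ∈ bigN G k x, dg G w = Fintype.card C) := by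
  classical
  have hs := dg_split G k x
  have h1 := hx.1
  have h2 := hx.2
  have hpos : 0 < (smN G k x).card := by omega
  obtain ⟨y, hy⟩ := Finset.card_pos.1 hpos
  rw [mem_smN] at hy
  have hk := h.hk
  obtain ⟨e1, e2, e3, e4, e5⟩ := fan_struct (by omega) h.hC h.nc h.cr h.deg hx hy.1 hy.2
  exact ⟨e1, e3, e4⟩

theorem glob_F2 (h : Crit G C k) : ∃ v, ¬ dg G v ≤ k := by
  classical
  by_contra hcon
  push Not at hcon
  have hk := h.hk
  have hC := h.hC
  by_cases hE : ∃ x y, G.Adj x y
  · obtain ⟨x, y, hxy⟩ := hE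
    obtain ⟨ψ⟩ := h.cr x y hxy
    obtain ⟨φ, f, hf1, hf2⟩ := restrict ψ
    have hyN : (Finset.univ.filter (fun v => (dl G x).Adj y v)).card + 1 ≤ k := by
      have hsub : insert x (Finset.univ.filter (fun v => (dl G x).Adj y v)) ⊆
          Finset.univ.filter (fun w => G.Adj y w) := by
        intro v hv
        rcases Finset.mem_insert.1 hv with rfl | hv
        · simp [hxy.symm]
        · simp only [Finset.mem_filter, Finset.mem_univ, true_and] at hv ⊢
          exact hv.1
      have hcard := Finset.card_le_card hsub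
      rw [Finset.card_insert_of_notMem (by simp [dl_adj])] at hcard
      have hdg : (Finset.univ.filter (fun w => G.Adj y w)).card = dg G y := by
        unfold dg
        congr
      have := hcon y
      omega
    have hm := card_miss φ y (Finset.univ.filter (fun a => Miss φ y a)) (by simp)
      (Finset.univ.filter (fun v => (dl G x).Adj y v)) (by simp)
    set A := ((Finset.univ.filter (fun w => G.Adj x w)).erase y).image f with hA
    have hAc : A.card + 1 ≤ k := by
      have h1 : A.card ≤ ((Finset.univ.filter (fun w => G.Adj x w)).erase y).card :=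
        Finset.card_image_le
      rw [Finset.card_erase_of_mem (by simp [hxy])] at h1
      have hdg : (Finset.univ.filter (fun w => G.Adj x w)).card = dg G x := by
        unfold dg
        congr
      have h2 : 0 < (Finset.univ.filter (fun w => G.Adj x w)).card :=
        Finset.card_pos.2 ⟨y, by simp [hxy]⟩
      have := hcon x
      omega
    have hlt : A.card < (Finset.univ.filter (fun a => Miss φ y a)).card := by omega
    obtain ⟨a, haF, haA⟩ := Finset.exists_mem_notMem_of_card_lt_card hlt
    have hma : Miss φ y a := by simpa using haF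
    have hfa : ∀ u, G.Adj x u → u ≠ y → f u ≠ a := by
      intro u hu huy he
      apply haA
      rw [hA, Finset.mem_image]
      exact ⟨u, by simp [huy, hu], he⟩
    obtain ⟨χ⟩ := extend (G := G) φ (Function.update f y a)
      (by
        intro u hu
        by_cases huy : u = y
        · subst huy
          simpa using hma
        · rw [Function.update_of_ne huy]
          exact hf1 u hu huy)
      (by
        intro u v hu hv huv
        by_cases huy : u = y
        · by_cases hvy : v = y
          · rw [huy, hvy]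
          · subst huy
            rw [Function.update_self, Function.update_of_ne hvy] at huv
            exact absurd huv.symm (hfa v hv hvy)
        · by_cases hvy : v = y
          · subst hvy
            rw [Function.update_self, Function.update_of_ne huy] at huv
            exact absurd huv (hfa u hu huy)
          · rw [Function.update_of_ne huy, Function.update_of_ne hvy] at huv
            exact hf2 u v hu huy hv hvy huv)
    exact h.nc χ
  · push Not at hE
    have hne : Nonempty C := Fintype.card_pos_iff.1 (by omega)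
    obtain ⟨a⟩ := hne
    exact h.nc ⟨fun _ _ => a, fun _ _ _ => rfl, fun u v w huv => absurd huv (hE u v)⟩

theorem glob_F3 (h : Crit G C k) : ∃ x, XX G k x := by
  classical
  obtain ⟨v, hv⟩ := glob_F2 h
  obtain ⟨x, hx, hx2⟩ := h.dgn (Finset.univ.filter (fun w => ¬ dg G w ≤ k)) ⟨v, by simpa using hv⟩
  refine ⟨x, by simpa using hx, ?_⟩
  refine le_trans (le_of_eq ?_) hx2
  unfold bigN
  congr 1
  ext w
  simp only [Finset.mem_filter, Finset.mem_univ, true_and]
  tauto

theorem glob_sm (h : Crit G C k) {x v u : V} (hx : XX G k x) (hxv : G.Adj x v)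
    (hv : ¬ dg G v ≤ k) (hvu : G.Adj v u) (hu : dg G u ≤ k) : G.Adj x u := by
  by_contra hn
  have hux : u ≠ x := by
    rintro rfl
    exact hx.1 hu
  have := Nn h hx hxv hv hvu hux (fun h' => hn h'.1)
  have hC := h.hC
  have hk := h.hk
  omega

theorem glob_sm_card (h : Crit G C k) {x v : V} (hx : XX G k x) (hxv : G.Adj x v)
    (hv : ¬ dg G v ≤ k) : (smN G k v).card ≤ 1 := by
  rw [Finset.card_le_one]
  intro a ha b hb
  rw [mem_smN] at ha hb
  have h1 := glob_sm h hx hxv hv ha.1 ha.2
  exact (Sh h hx h1 ha.2 ha.1.symm hxv.ne' hb.1 hb.2).symm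

theorem glob_F4 (h : Crit G C k) {x w : V} (hx : XX G k x) (hw : w ∈ bigN G k x) :
    ¬ XX G k w := by
  intro hW
  obtain ⟨e1, e2, e3⟩ := glob_F1 h hx
  have hd := e3 w hw
  rw [mem_bigN] at hw
  have h1 := glob_sm_card h hx hw.1 hw.2
  have h2 := dg_split G k w
  have h3 := hW.2
  have hk := h.hk
  omega

end glob

theorem global {V C : Type} [Fintype V] [Fintype C] {G : SimpleGraph V} {k : ℕ}
    (h : Crit G C k) : False := by
  classical
  have hk := h.hk
  obtain ⟨x, hx⟩ := glob_F3 h
  obtain ⟨e1, e2, e3⟩ := glob_F1 h hx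
  obtain ⟨w, hw⟩ := Finset.card_pos.1 (show 0 < (bigN G k x).card by omega)
  have hwX := glob_F4 h hx hw
  set U : Finset V := Finset.univ.filter (fun v => ¬ dg G v ≤ k ∧ ¬ XX G k v) with hU
  have hUne : U.Nonempty := ⟨w, by
    rw [hU, Finset.mem_filter]
    exact ⟨Finset.mem_univ _, (mem_bigN.1 hw).2, hwX⟩⟩
  obtain ⟨v, hvU, hv⟩ := h.dgn U hUne
  have hv1 : ¬ dg G v ≤ k ∧ ¬ XX G k v := by
    rw [hU, Finset.mem_filter] at hvU
    exact hvU.2
  have hvb : k < (bigN G k v).card := by
    by_contra hn
    exact hv1.2 ⟨hv1.1, not_lt.1 hn⟩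
  -- split of the big neighbours of v
  set NX : Finset V := (bigN G k v).filter (fun u => XX G k u) with hNX
  have hsplit : NX.card + ((bigN G k v).filter (fun u => ¬ XX G k u)).card =
      (bigN G k v).card := by
    rw [hNX]
    exact Finset.card_filter_add_card_filter_not (s := bigN G k v) (fun u => XX G k u)
  have hle : ((bigN G k v).filter (fun u => ¬ XX G k u)).card ≤ k := by
    refine le_trans (Finset.card_le_card ?_) hv
    intro u hu
    rw [Finset.mem_filter, mem_bigN] at hu
    rw [Finset.mem_filter, hU, Finset.mem_filter]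
    exact ⟨⟨Finset.mem_univ _, hu.1.2, hu.2⟩, hu.1.1⟩
  obtain ⟨x1, hx1⟩ := Finset.card_pos.1 (show 0 < NX.card by omega)
  rw [hNX, Finset.mem_filter, mem_bigN] at hx1
  obtain ⟨⟨hvx1, hdx1⟩, hX1⟩ := hx1
  have hvx : v ∈ bigN G k x1 := mem_bigN.2 ⟨hvx1.symm, hv1.1⟩
  obtain ⟨f1, f2, f3⟩ := glob_F1 h hX1
  have hdv := f3 v hvx
  have hsm := glob_sm_card h hX1 hvx1.symm hv1.1
  have hsp := dg_split G k v
  have hNXc : k - 2 ≤ NX.card := by omega
  have hmem1 : x1 ∈ NX := by
    rw [hNX, Finset.mem_filter, mem_bigN]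
    exact ⟨⟨hvx1, hdx1⟩, hX1⟩
  have hdeg : ∀ u ∈ NX, u ≠ x1 → dg G u = Fintype.card C := by
    intro u hu hux
    rw [hNX, Finset.mem_filter, mem_bigN] at hu
    exact Nn h hX1 hvx1.symm hv1.1 hu.1.1 hux (fun h' => hu.1.2 h'.2)
  obtain ⟨x2, hx2⟩ := Finset.card_pos.1
    (show 0 < (NX.erase x1).card by rw [Finset.card_erase_of_mem hmem1]; omega)
  have hx2' := Finset.mem_erase.1 hx2
  have hx2m := hx2'.2
  rw [hNX, Finset.mem_filter, mem_bigN] at hx2m
  refine Tt h hx2m.2 (hdeg x2 hx2'.2 hx2'.1) hx2m.1.1.symm hv1.1 ((NX.erase x1).erase x2) ?_ ?_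
  · intro s hs
    have hs1 := Finset.mem_erase.1 hs
    have hs2 := Finset.mem_erase.1 hs1.2
    have hs3 := hs2.2
    rw [hNX, Finset.mem_filter, mem_bigN] at hs3
    exact ⟨hs3.1.1, hs3.2, hdeg s hs2.2 hs2.1, hs1.1⟩
  · rw [Finset.card_erase_of_mem hx2, Finset.card_erase_of_mem hmem1]
    omega

end Pool.Agent.H231EC
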