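import Mathlib
import Pool.Agent.H231EC.Global

set_option autoImplicit false

namespace Pool.Agent.H231EC

open Finset




open Classical in
theorem final_ind (k D : ℕ) (hk : 200 ≤ k) (hD : 2 * k - 1 ≤ D) {V : Type} [Fintype V] :
    ∀ (n : ℕ) (G : SimpleGraph V), (Finset.univ.filter (fun p : V × V => G.Adj p.1 p.2)).card = n →
      (∀ s : Finset V, s.Nonempty → ∃ v ∈ s, (s.filter (fun w => G.Adj v w)).card ≤ k) →
      (∀ v, dg G v ≤ D) → Nonempty (ECol G (Fin D)) := by
  intro n
  induction n using Nat.strong_induction_on with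
  | _ n ih =>
    intro G hn hdgn hdeg
    by_contra hne
    apply global (C := Fin D) (G := G) (k := k)
    refine ⟨fun e => hne ⟨e⟩, ?_, ?_, hdgn, hk, ?_⟩
    · intro x y hxy
      have hsub : ∀ u v, (de G x y).Adj u v → G.Adj u v := fun u v h => h.1
      apply ih _ _ (de G x y) rfl
      · intro s hs
        obtain ⟨v, hv, hc⟩ := hdgn s hs
        refine ⟨v, hv, le_trans (Finset.card_le_card ?_) hc⟩
        intro w hw
        rw [Finset.mem_filter] at hw ⊢
        exact ⟨hw.1, hsub _ _ hw.2⟩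
      · intro v
        refine le_trans (Finset.card_le_card ?_) (hdeg v)
        intro w hw
        rw [Finset.mem_filter] at hw ⊢
        exact ⟨hw.1, hsub _ _ hw.2⟩
      · rw [← hn]
        apply Finset.card_lt_card
        rw [Finset.ssubset_iff_of_subset]
        · refine ⟨(x, y), ?_, ?_⟩
          · rw [Finset.mem_filter]
            exact ⟨Finset.mem_univ _, hxy⟩
          · rw [Finset.mem_filter]
            rintro ⟨_, h⟩
            exact h.2.1 ⟨rfl, rfl⟩
        · intro p hp
          rw [Finset.mem_filter] at hp ⊢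
          exact ⟨hp.1, hsub _ _ hp.2⟩
    · intro v
      rw [Fintype.card_fin]
      exact hdeg v
    · rw [Fintype.card_fin]
      exact hD

theorem final_line {V : Type} (G : SimpleGraph V) (D : ℕ) (φ : ECol G (Fin D)) :
    G.lineGraph.Colorable D := by
  classical
  have hex : ∀ e : G.edgeSet, ∃ u v : V, e.1 = s(u, v) ∧ G.Adj u v := by
    rintro ⟨e, he⟩
    induction e using Sym2.ind with
    | _ u v => exact ⟨u, v, rfl, he⟩
  choose U W hUW hadj using hex
  have key : ∀ (e : G.edgeSet) (x v : V), e.1 = s(x, v) → G.Adj x v ∧ φ.c (U e) (W e) = φ.c x v := by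
    intro e x v hxv
    have h1 := hUW e
    rw [hxv, Sym2.eq_iff] at h1
    rcases h1 with ⟨h2, h3⟩ | ⟨h2, h3⟩
    · rw [h2, h3]
      exact ⟨hadj e, rfl⟩
    · rw [h2, h3]
      exact ⟨(hadj e).symm, φ.symm _ _ (hadj e)⟩
  refine ⟨SimpleGraph.Coloring.mk (fun e => φ.c (U e) (W e)) ?_⟩
  intro e₁ e₂ h heq
  obtain ⟨hne, x, hx1, hx2⟩ := h
  have hx1' : x ∈ e₁.1 := hx1
  have hx2' : x ∈ e₂.1 := hx2
  obtain ⟨v, hv⟩ := Sym2.mem_iff_exists.1 hx1'
  obtain ⟨w, hw⟩ := Sym2.mem_iff_exists.1 hx2'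
  obtain ⟨a1, c1⟩ := key e₁ x v hv
  obtain ⟨a2, c2⟩ := key e₂ x w hw
  have heq' : φ.c x v = φ.c x w := by rw [← c1, ← c2]; exact heq
  have hvw := φ.proper x v w a1 a2 heq'
  apply hne
  apply Subtype.ext
  rw [hv, hw, hvw]

/-- final statement (frozen form) -/
theorem final :
    ∃ K : ℕ, ∀ k : ℕ, K ≤ k →
      ∀ (V : Type) [Fintype V] [DecidableEq V] (G : SimpleGraph V) [DecidableRel G.Adj],
        (∀ s : Finset V, s.Nonempty → ∃ v ∈ s, (s.filter (fun w => G.Adj v w)).card ≤ k) →
        2 * k - 1 ≤ G.maxDegree →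
        G.lineGraph.Colorable G.maxDegree := by
  refine ⟨200, ?_⟩
  intro k hk V _ _ G _ hdgn hD
  have h1 : Nonempty (ECol G (Fin G.maxDegree)) := by
    apply final_ind k G.maxDegree hk hD _ G rfl
    · intro s hs
      obtain ⟨v, hv, hc⟩ := hdgn s hs
      refine ⟨v, hv, ?_⟩
      convert hc
    · intro v
      refine le_trans (le_of_eq ?_) (G.degree_le_maxDegree v)
      unfold dg
      rw [← SimpleGraph.card_neighborFinset_eq_degree]
      congr 1
      ext w
      simp only [Finset.mem_filter, Finset.mem_univ, true_and, SimpleGraph.mem_neighborFinset]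
  obtain ⟨φ⟩ := h1
  exact final_line G _ φ


end Pool.Agent.H231EC
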